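import Pool.Agent.Lib.MP_5349a4_pr.M.Base
import Pool.Agent.Lib.MP_5349a4_pr.M.Iface4
import Pool.Agent.Lib.MP_5349a4_pr.M.H7.COUNT

/-!
# FROZ: the hypotheses of the frozen statement hold for a Poisson process in the sense of IsProc
-/

set_option autoImplicit false
open MeasureTheory Set ProbabilityTheory
open scoped ENNReal NNReal

namespace Pool.Agent.Lib.MP_5349a4_pr.H98.Froz

variable {d : ℕ}

/-- counts in disjoint sets are independent under `PL` -/
theorem prod_count (hR : ResStatement) {E : Type} [MeasurableSpace E] [StandardBorelSpace E]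
    (hPr : ProbStatement)
    (ρ : Measure E) [IsFiniteMeasure ρ] {ι : Type} [DecidableEq ι] (A : ι → Set E)
    (hA : ∀ i, MeasurableSet (A i)) (hd : Pairwise (fun i j => Disjoint (A i) (A j)))
    (n : ι → ℕ) (s : Finset ι) :
    PL ρ {ω | ∀ i ∈ s, (pt ω ∩ A i).ncard = n i} =
      ∏ i ∈ s, PL ρ {ω | (pt ω ∩ A i).ncard = n i} := by
  have hm : ∀ t : Finset ι, MeasurableSet {ω : Cfg E | ∀ i ∈ t, (pt ω ∩ A i).ncard = n i} := by
    intro t
    have e : {ω : Cfg E | ∀ i ∈ t, (pt ω ∩ A i).ncard = n i} =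
        ⋂ i ∈ t, {ω : Cfg E | (pt ω ∩ A i).ncard = n i} := by
      ext ω; simp
    rw [e]
    exact Finset.measurableSet_biInter _ fun i _ => H7.meas_eq (n i) (hA i)
  induction s using Finset.induction_on with
  | empty =>
    haveI := (hPr E ρ).1
    simp
  | insert i₀ s hi ih =>
    rw [Finset.prod_insert hi, ← ih]
    set f : Set E → Set E → ℝ≥0∞ := fun P Q =>
      ind ((P ∩ A i₀).ncard = n i₀) * ind (∀ i ∈ s, (Q ∩ A i).ncard = n i) with hf
    have hfm : Measurable (fun q : Cfg E × Cfg E => f (pt q.1) (pt q.2)) := by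
      refine Measurable.mul ?_ ?_
      · exact (measurable_ind (H7.meas_eq (n i₀) (hA i₀))).comp measurable_fst
      · exact (measurable_ind (hm s)).comp measurable_snd
    have h1 := (hR E ρ (A i₀) (hA i₀)).2 f hfm
    have e1 : ∀ ω : Cfg E, f (pt ω ∩ A i₀) (pt ω \ A i₀) =
        ind (∀ i ∈ insert i₀ s, (pt ω ∩ A i).ncard = n i) := by
      intro ω
      have e2 : ∀ i ∈ s, (pt ω \ A i₀) ∩ A i = pt ω ∩ A i := by
        intro i his
        have hne : i ≠ i₀ := fun h => hi (h ▸ his)
        ext e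
        simp only [mem_inter_iff, mem_sdiff]
        exact ⟨fun h => ⟨h.1.1, h.2⟩, fun h => ⟨⟨h.1, fun h0 =>
          disjoint_left.1 (hd hne) h.2 h0⟩, h.2⟩⟩
      simp only [hf]
      rw [← ind_and]
      refine ind_congr ?_
      rw [inter_assoc, inter_self, Finset.forall_mem_insert]
      refine and_congr Iff.rfl ?_
      exact forall₂_congr fun i his => by rw [e2 i his]
    have e3 : ∀ ω ω' : Cfg E, f (pt ω ∩ A i₀) (pt ω' \ A i₀) =
        ind ((pt ω ∩ A i₀).ncard = n i₀) * ind (∀ i ∈ s, (pt ω' ∩ A i).ncard = n i) := by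
      intro ω ω'
      have e2 : ∀ i ∈ s, (pt ω' \ A i₀) ∩ A i = pt ω' ∩ A i := by
        intro i his
        have hne : i ≠ i₀ := fun h => hi (h ▸ his)
        ext e
        simp only [mem_inter_iff, mem_sdiff]
        exact ⟨fun h => ⟨h.1.1, h.2⟩, fun h => ⟨⟨h.1, fun h0 =>
          disjoint_left.1 (hd hne) h.2 h0⟩, h.2⟩⟩
      simp only [hf]
      rw [inter_assoc, inter_self]
      congr 1
      refine ind_congr ?_
      exact forall₂_congr fun i his => by rw [e2 i his]
    simp only [e1, e3] at h1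
    rw [lintegral_ind (hm _)] at h1
    rw [h1]
    have e4 : ∀ ω : Cfg E, ∫⁻ ω' : Cfg E, ind ((pt ω ∩ A i₀).ncard = n i₀) *
        ind (∀ i ∈ s, (pt ω' ∩ A i).ncard = n i) ∂PL ρ =
        ind ((pt ω ∩ A i₀).ncard = n i₀) * PL ρ {ω | ∀ i ∈ s, (pt ω ∩ A i).ncard = n i} := by
      intro ω
      rw [lintegral_const_mul _ (measurable_ind (hm s)), lintegral_ind (hm s)]
    simp only [e4]
    rw [lintegral_mul_const _ (measurable_ind (H7.meas_eq (n i₀) (hA i₀))),
      lintegral_ind (H7.meas_eq (n i₀) (hA i₀))]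

theorem poisson_singleton (v : ℝ≥0) (n : ℕ) :
    (poissonPMF v).toMeasure {n} =
      ENNReal.ofReal (Real.exp (-(v : ℝ))) * (v : ℝ≥0∞) ^ n / n.factorial := by
  rw [PMF.toMeasure_apply_singleton _ _ (measurableSet_singleton n),
    ← poissonPMFReal_ofReal_eq_poissonPMF]
  unfold poissonPMFReal
  rw [ENNReal.ofReal_div_of_pos (by positivity), ENNReal.ofReal_mul (by positivity),
    ENNReal.ofReal_pow (by positivity), ENNReal.ofReal_coe_nnreal, ENNReal.ofReal_natCast]

theorem froz (hR : ResStatement) (hC : CountStatement) (hPr : ProbStatement) :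
    FrozStatement := by
  intro d Ω _ Pr S hd hS
  haveI := hS.prob
  have hfin : ∀ V : Set (Eu d), Dom V → IsFiniteMeasure (leb 1 V) := fun V hV => finite_leb 1 hV.2
  have hat : ∀ V : Set (Eu d), NullSingletonClass (leb 1 V) := fun V => noAtoms_leb hd 1 V
  -- the count in `A` under the Poisson law in `V ⊇ A`
  have key : ∀ (V A : Set (Eu d)) (n : ℕ), Dom V → MeasurableSet A → A ⊆ V →
      PL (leb 1 V) {ω | (pt ω ∩ A).ncard = n} =
        (poissonPMF (volume A).toNNReal).toMeasure {n} := by
    intro V A n hV hA hAV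
    haveI := hfin V hV
    haveI := hat V
    have h1 := (hC (Eu d) (leb 1 V) A hA).2.2 n
    have e1 : (leb 1 V) A = volume A := by
      unfold leb
      rw [Measure.smul_apply, Measure.restrict_apply hA, inter_eq_left.2 hAV]
      simp
    have hA' : volume A ≠ ∞ := ((hV.2.subset hAV).measure_lt_top).ne
    rw [h1, e1, poisson_singleton]
    rw [ENNReal.coe_toNNReal hA', ENNReal.coe_toNNReal_eq_toReal]
  have hmeas : ∀ A : Set (Eu d), MeasurableSet A → Bornology.IsBounded A →
      Measurable (fun ω => (S ω ∩ A).ncard) := by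
    intro A hA hAb
    refine measurable_to_countable' fun n => ?_
    have hcm : CM (fun P : Set (Eu d) => ind ((P ∩ A).ncard = n)) :=
      measurable_ind (H7.meas_eq n hA)
    have h1 := (hS.law A ⟨hA, hAb⟩ _ hcm).1
    have e1 : (fun ω => (S ω ∩ A).ncard) ⁻¹' {n} =
        (fun ω => ind ((S ω ∩ A ∩ A).ncard = n)) ⁻¹' {1} := by
      ext ω
      simp only [mem_preimage, mem_singleton_iff, inter_assoc, inter_self]
      by_cases h : (S ω ∩ A).ncard = n
      · simp [ind_of h, h]
      · simp [ind_not h, h]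
    rw [e1]
    exact h1 (measurableSet_singleton 1)
  have hprob : ∀ (A : Set (Eu d)) (n : ℕ), MeasurableSet A → Bornology.IsBounded A →
      Pr.map (fun ω => (S ω ∩ A).ncard) {n} = (poissonPMF (volume A).toNNReal).toMeasure {n} := by
    intro A n hA hAb
    rw [Measure.map_apply (hmeas A hA hAb) (measurableSet_singleton n)]
    have hcm : CM (fun P : Set (Eu d) => ind ((P ∩ A).ncard = n)) :=
      measurable_ind (H7.meas_eq n hA)
    have h1 := (hS.law A ⟨hA, hAb⟩ _ hcm).2
    rw [lintegral_ind (H7.meas_eq n hA), key A A n ⟨hA, hAb⟩ hA subset_rfl] at h1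
    simp only [inter_assoc, inter_self] at h1
    rw [← h1, lintegral_ind]
    · rfl
    · exact hmeas A hA hAb (measurableSet_singleton n)
  refine ⟨fun A hA hAb => ?_, fun k A hA hAb hdis => ?_⟩
  · rw [Measure.ext_iff_singleton]
    exact fun n => hprob A n hA hAb
  · rw [iIndepFun_iff_map_fun_eq_pi_map (fun i => (hmeas (A i) (hA i) (hAb i)).aemeasurable),
      Measure.ext_iff_singleton]
    intro n
    have hall : Measurable fun ω i => (S ω ∩ A i).ncard :=
      measurable_pi_lambda _ fun i => hmeas (A i) (hA i) (hAb i)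
    haveI : ∀ i, IsProbabilityMeasure (Pr.map fun ω => (S ω ∩ A i).ncard) := fun i =>
      Measure.isProbabilityMeasure_map (hmeas (A i) (hA i) (hAb i)).aemeasurable
    rw [Measure.pi_singleton, Measure.map_apply hall (measurableSet_singleton n)]
    set V : Set (Eu d) := ⋃ i, A i with hVdef
    have hV : Dom V := ⟨MeasurableSet.iUnion hA, Bornology.isBounded_iUnion.2 hAb⟩
    haveI := hfin V hV
    have hmm : MeasurableSet {ω : Cfg (Eu d) | ∀ i ∈ (Finset.univ : Finset (Fin k)),
        (pt ω ∩ A i).ncard = n i} := by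
      have e : {ω : Cfg (Eu d) | ∀ i ∈ (Finset.univ : Finset (Fin k)), (pt ω ∩ A i).ncard = n i} =
          ⋂ i ∈ (Finset.univ : Finset (Fin k)), {ω : Cfg (Eu d) | (pt ω ∩ A i).ncard = n i} := by
        ext ω; simp
      rw [e]
      exact Finset.measurableSet_biInter _ fun i _ => H7.meas_eq (n i) (hA i)
    have hcm : CM (fun P : Set (Eu d) => ind (∀ i ∈ (Finset.univ : Finset (Fin k)),
        (P ∩ A i).ncard = n i)) := measurable_ind hmm
    have h1 := (hS.law V hV _ hcm).2
    rw [lintegral_ind hmm, prod_count hR hPr (leb 1 V) A hA hdis n Finset.univ] at h1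
    have e2 : ∀ ω, ind (∀ i ∈ (Finset.univ : Finset (Fin k)), (S ω ∩ V ∩ A i).ncard = n i)
        = ind (∀ i ∈ (Finset.univ : Finset (Fin k)), (S ω ∩ A i).ncard = n i) := by
      intro ω
      refine ind_congr ?_
      refine forall₂_congr fun i _ => ?_
      rw [inter_assoc, inter_eq_right.2 (subset_iUnion A i)]
    simp only [e2] at h1
    have e3 : ((fun ω i => (S ω ∩ A i).ncard) ⁻¹' {n}) =
        {ω | ∀ i ∈ (Finset.univ : Finset (Fin k)), (S ω ∩ A i).ncard = n i} := by
      ext ω
      simp only [mem_preimage, mem_singleton_iff, mem_ofPred_eq, Finset.mem_univ, true_imp_iff]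
      exact funext_iff
    rw [lintegral_ind (by rw [← e3]; exact hall (measurableSet_singleton n))] at h1
    rw [e3, h1]
    refine Finset.prod_congr rfl fun i _ => ?_
    rw [hprob (A i) (n i) (hA i) (hAb i), key V (A i) (n i) hV (hA i) (subset_iUnion A i)]

end Pool.Agent.Lib.MP_5349a4_pr.H98.Froz
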