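import Pool.Agent.Lib.MP_5349a4_pr.M.H98.RS

/-!
# STAT (8.1): the static lemma
-/

set_option autoImplicit false
open MeasureTheory Set
open scoped ENNReal NNReal

namespace Pool.Agent.Lib.MP_5349a4_pr.H98

variable {d : ℕ}

theorem nbd_finset (r : ℝ) (R : Finset (Eu d)) :
    nbd r (R : Set (Eu d)) = ⋃ x ∈ R, Metric.closedBall x r := by
  ext e
  simp only [nbd, mem_iUnion, Metric.mem_closedBall]
  constructor
  · rintro ⟨u, hu, h⟩; exact ⟨u, hu, h⟩
  · rintro ⟨u, hu, h⟩; exact ⟨u, hu, h⟩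

theorem measurableSet_nbd_finset (r : ℝ) (R : Finset (Eu d)) :
    MeasurableSet (nbd r (R : Set (Eu d))) := by
  rw [nbd_finset]
  exact Finset.measurableSet_biUnion _ fun x _ => Metric.isClosed_closedBall.measurableSet

theorem volume_bal_half (x : Eu d) :
    volume (bal x (1 / 2)) = ENNReal.ofReal ((1 / 2) ^ d) * volume (bal (0 : Eu d) 1) := by
  unfold bal
  rw [Measure.addHaar_closedBall volume x (by norm_num : (0 : ℝ) ≤ 1 / 2),
    Measure.addHaar_closedBall volume (0 : Eu d) (by norm_num : (0 : ℝ) ≤ 1)]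
  simp

theorem volume_bal_two (x : Eu d) :
    volume (bal x 2) = ENNReal.ofReal (2 ^ d) * volume (bal (0 : Eu d) 1) := by
  unfold bal
  rw [Measure.addHaar_closedBall volume x (by norm_num : (0 : ℝ) ≤ 2),
    Measure.addHaar_closedBall volume (0 : Eu d) (by norm_num : (0 : ℝ) ≤ 1)]
  simp

/-- number of points in a ball of radius two -/
theorem dens_two (d : ℕ) : ∃ N : ℕ, ∀ (R : Finset (Eu d)) (Δ : ℝ), 0 ≤ Δ →
    Dens (R : Set (Eu d)) Δ → ∀ w : Eu d, num R (fun x => x ∈ bal w 2) ≤ ENNReal.ofReal (N * Δ) := by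
  classical
  obtain ⟨F, hF⟩ : ∃ F : Finset (Eu d), bal (0 : Eu d) 2 ⊆ ⋃ f ∈ F, bal f 1 := by
    have hc : IsCompact (bal (0 : Eu d) 2) := isCompact_closedBall _ _
    obtain ⟨t, ht⟩ := hc.elim_finite_subcover (fun f : Eu d => Metric.ball f 1)
      (fun f => Metric.isOpen_ball) (fun x _ => mem_iUnion.2 ⟨x, Metric.mem_ball_self one_pos⟩)
    refine ⟨t, ht.trans ?_⟩
    exact iUnion₂_mono fun f _ => Metric.ball_subset_closedBall
  refine ⟨F.card, fun R Δ hΔ hR w => ?_⟩
  have h1 : ∀ x ∈ R, ind (x ∈ bal w 2) ≤ ∑ f ∈ F, ind (x ∈ bal (w + f) 1) := by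
    intro x _
    by_cases hx : x ∈ bal w 2
    · have h2 : x - w ∈ bal (0 : Eu d) 2 := by
        simp only [bal, Metric.mem_closedBall, dist_eq_norm, sub_zero] at hx ⊢
        exact hx
      obtain ⟨f, hf, hxf⟩ := mem_iUnion₂.1 (hF h2)
      refine le_trans ?_ (Finset.single_le_sum (f := fun f => ind (x ∈ bal (w + f) 1))
        (fun _ _ => zero_le) hf)
      refine ind_mono fun _ => ?_
      simp only [bal, Metric.mem_closedBall, dist_eq_norm] at hxf ⊢
      rwa [← sub_sub]
    · rw [ind_not hx]; exact zero_le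
  unfold num
  calc ∑ x ∈ R, ind (x ∈ bal w 2) ≤ ∑ x ∈ R, ∑ f ∈ F, ind (x ∈ bal (w + f) 1) :=
        Finset.sum_le_sum h1
    _ = ∑ f ∈ F, ∑ x ∈ R, ind (x ∈ bal (w + f) 1) := Finset.sum_comm
    _ ≤ ∑ f ∈ F, ENNReal.ofReal Δ := by
        refine Finset.sum_le_sum fun f _ => ?_
        have h3 := hR (w + f)
        have h4 : ∑ x ∈ R, ind (x ∈ bal (w + f) 1)
            = (((R : Set (Eu d)) ∩ bal (w + f) 1).ncard : ℝ≥0∞) := by
          have h5 : ((R : Set (Eu d)) ∩ bal (w + f) 1) = ((R.filter (· ∈ bal (w + f) 1) :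
              Finset (Eu d)) : Set (Eu d)) := by
            ext x; simp
          rw [h5, Set.ncard_coe_finset, Finset.card_filter]
          push_cast
          refine Finset.sum_congr rfl fun x _ => ?_
          by_cases hx : x ∈ bal (w + f) 1
          · rw [ind_of hx, if_pos hx]
          · rw [ind_not hx, if_neg hx]
        rw [h4, ← ENNReal.ofReal_natCast]
        exact ENNReal.ofReal_le_ofReal h3
    _ = ENNReal.ofReal (F.card * Δ) := by
        rw [Finset.sum_const, nsmul_eq_mul, ENNReal.ofReal_mul (Nat.cast_nonneg _),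
          ENNReal.ofReal_natCast]

/-- (8.1)(3): points of `R` near `K` produce volume -/
theorem za_bound {N : ℕ} (hN : ∀ (R : Finset (Eu d)) (Δ : ℝ), 0 ≤ Δ →
    Dens (R : Set (Eu d)) Δ → ∀ w : Eu d, num R (fun x => x ∈ bal w 2) ≤ ENNReal.ofReal (N * Δ))
    {r r' Δ : ℝ} (h1 : 1 ≤ r) (h2 : r ≤ r') (h3 : r' ≤ 2) (hΔ : 0 ≤ Δ) (K : Set (Eu d))
    (R : Finset (Eu d)) (hR : Dens (R : Set (Eu d)) Δ) :
    num R (fun x => x ∈ nbd r K) * volume (bal (0 : Eu d) (1 / 2))
      ≤ ENNReal.ofReal (N * Δ) * volume (nbd r K ∩ nbd r' (R : Set (Eu d))) := by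
  set A : Set (Eu d) := nbd r K ∩ nbd r' (R : Set (Eu d)) with hA
  have key : ∀ x ∈ R, ind (x ∈ nbd r K) * volume (bal (0 : Eu d) (1 / 2))
      ≤ ∫⁻ w in A, ind (x ∈ bal w 2) := by
    intro x hx
    by_cases hxK : x ∈ nbd r K
    · obtain ⟨y, hy, hxy⟩ := hxK
      set z : Eu d := (1 / 2 : ℝ) • (x + y) with hz
      have hzx : dist z x ≤ r / 2 := by
        have : z - x = (1 / 2 : ℝ) • (y - x) := by rw [hz]; module
        rw [dist_eq_norm, this, norm_smul, ← dist_eq_norm, dist_comm]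
        simp only [Real.norm_eq_abs]
        rw [abs_of_pos (by norm_num : (0:ℝ) < 1/2)]
        linarith
      have hzy : dist z y ≤ r / 2 := by
        have : z - y = (1 / 2 : ℝ) • (x - y) := by rw [hz]; module
        rw [dist_eq_norm, this, norm_smul, ← dist_eq_norm]
        simp only [Real.norm_eq_abs]
        rw [abs_of_pos (by norm_num : (0:ℝ) < 1/2)]
        linarith
      have hsub : bal z (1 / 2) ⊆ A ∩ {w | x ∈ bal w 2} := by
        intro w hw
        have hw' : dist w z ≤ 1 / 2 := hw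
        refine ⟨⟨⟨y, hy, ?_⟩, ⟨x, hx, ?_⟩⟩, ?_⟩
        · linarith [dist_triangle w z y]
        · linarith [dist_triangle w z x]
        · show dist x w ≤ 2
          rw [dist_comm]
          linarith [dist_triangle w z x]
      have hm : MeasurableSet {w : Eu d | x ∈ bal w 2} := by
        have : {w : Eu d | x ∈ bal w 2} = bal x 2 := by
          ext w
          show dist x w ≤ 2 ↔ dist w x ≤ 2
          rw [dist_comm]
        rw [this]
        exact (dom_bal x 2).1
      rw [lintegral_ind hm, Measure.restrict_apply hm]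
      have h5 : volume (bal (0 : Eu d) (1 / 2)) = volume (bal z (1 / 2)) := by
        rw [volume_bal_half, volume_bal_half]
      calc ind (x ∈ nbd r K) * volume (bal (0 : Eu d) (1 / 2))
          ≤ 1 * volume (bal (0 : Eu d) (1 / 2)) := mul_le_mul_left (ind_le_one _) _
        _ = volume (bal z (1 / 2)) := by rw [one_mul, h5]
        _ ≤ volume ({w | x ∈ bal w 2} ∩ A) := measure_mono (by rw [inter_comm]; exact hsub)
    · rw [ind_not hxK, zero_mul]; exact zero_le
  unfold num
  rw [Finset.sum_mul]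
  calc ∑ x ∈ R, ind (x ∈ nbd r K) * volume (bal (0 : Eu d) (1 / 2))
      ≤ ∑ x ∈ R, ∫⁻ w in A, ind (x ∈ bal w 2) := Finset.sum_le_sum key
    _ = ∫⁻ w in A, ∑ x ∈ R, ind (x ∈ bal w 2) := by
        rw [lintegral_finsetSum]
        intro x _
        refine measurable_ind ?_
        have : {w : Eu d | x ∈ bal w 2} = bal x 2 := by
          ext w
          show dist x w ≤ 2 ↔ dist w x ≤ 2
          rw [dist_comm]
        rw [this]
        exact (dom_bal x 2).1
    _ ≤ ∫⁻ _ in A, ENNReal.ofReal (N * Δ) := lintegral_mono fun w => hN R Δ hΔ hR w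
    _ = ENNReal.ofReal (N * Δ) * volume A := by
        rw [lintegral_const, Measure.restrict_apply_univ]

theorem isProb_leb (hPr : ProbStatement) (lam : ℝ≥0) {U : Set (Eu d)} (hU : Dom U) :
    IsProbabilityMeasure (PL (leb lam U)) := by
  have := finite_leb lam hU.2
  exact (hPr (Eu d) (leb lam U)).1

/-- mean volume of the part of `V` near `LL` -/
theorem mean_vol (hP : MagPStatement) (hPr : ProbStatement) (hMS : MSumStatement)
    (hO : MOpsStatement) (hR : MRestrStatement) (hC : ConMStatement) (hd : 1 ≤ d)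
    {r : ℝ} (hr : 0 ≤ r) {lam h : ℝ≥0} (hh : h ≤ 1) {U W V : Set (Eu d)} (hU : Dom U)
    (hW : MeasurableSet W) (hV : MeasurableSet V) :
    ∫⁻ q, volume (nbd r (LLs r (pt q.1) (pt q.2) W) ∩ V)
        ∂((PL (leb (lam * (1 - h)) U)).prod (PL (leb (lam * h) U)))
      ≤ Mag d lam r h * volume V := by
  have := isProb_leb hPr (lam * (1 - h)) hU
  have := isProb_leb hPr (lam * h) hU
  set μ := (PL (leb (lam * (1 - h)) U)).prod (PL (leb (lam * h) U)) with hμ
  have hS : MeasurableSet {q : (Cfg (Eu d) × Cfg (Eu d)) × Eu d |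
      q.2 ∈ nbd r (LLs r (pt q.1.1) (pt q.1.2) W)} :=
    RS.memNbdLLs hMS hO hR hC (RS.pt.comp (measurable_fst.comp measurable_fst))
      (RS.pt.comp (measurable_snd.comp measurable_fst)) hW r r measurable_snd
  have h1 : ∀ q : Cfg (Eu d) × Cfg (Eu d), volume (nbd r (LLs r (pt q.1) (pt q.2) W) ∩ V)
      = ∫⁻ w in V, ind (w ∈ nbd r (LLs r (pt q.1) (pt q.2) W)) := by
    intro q
    have hm : MeasurableSet {w : Eu d | w ∈ nbd r (LLs r (pt q.1) (pt q.2) W)} :=
      measurable_prodMk_left hS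
    rw [lintegral_ind hm, Measure.restrict_apply hm]
    rfl
  have hm2 : Measurable fun z : (Cfg (Eu d) × Cfg (Eu d)) × Eu d =>
      ind (z.2 ∈ nbd r (LLs r (pt z.1.1) (pt z.1.2) W)) := measurable_ind hS
  simp_rw [h1]
  rw [lintegral_lintegral_swap hm2.aemeasurable]
  calc ∫⁻ w in V, ∫⁻ q, ind (w ∈ nbd r (LLs r (pt q.1) (pt q.2) W)) ∂μ
      ≤ ∫⁻ _ in V, Mag d lam r h := by
        refine lintegral_mono fun w => ?_
        have hm : MeasurableSet {q : Cfg (Eu d) × Cfg (Eu d) |
            w ∈ nbd r (LLs r (pt q.1) (pt q.2) W)} := measurable_prodMk_right hS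
        simp only
        rw [lintegral_ind hm]
        exact (hP d lam r h hd hr hh).2.2.2.2 U W w hU hW
    _ = Mag d lam r h * volume V := by
        rw [lintegral_const, Measure.restrict_apply_univ]

theorem lamr_le (lam : ℝ≥0) {r : ℝ} (hr : 1 ≤ r) : lamr d lam r ≤ lam := by
  unfold lamr
  refine div_le_self zero_le ?_
  rw [← NNReal.coe_le_coe, Real.coe_toNNReal _ (by positivity), NNReal.coe_one]
  exact one_le_pow₀ hr

theorem volume_nbd_le (R : Finset (Eu d)) :
    volume (nbd 2 (R : Set (Eu d))) ≤ R.card * (ENNReal.ofReal (2 ^ d) * volume (bal (0 : Eu d) 1)) := by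
  rw [nbd_finset]
  refine (measure_biUnion_finset_le _ _).trans ?_
  rw [← nsmul_eq_mul]
  refine Finset.sum_le_card_nsmul _ _ _ fun x _ => ?_
  exact (volume_bal_two x).le

theorem stat (hZ : StatZStatement) (hD : StatDStatement) (hE : StatEStatement)
    (hP : MagPStatement) (hMag : MagStatement) (hDec : DecRStatement) (hSum : SumRStatement)
    (hSc : ScalStatement) (hPr : ProbStatement) (hMS : MSumStatement) (hO : MOpsStatement)
    (hR : MRestrStatement) (hC : ConMStatement) : StatStatement := by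
  intro d lam κ A hCr
  have hκ := hCr.hκ
  have hd : 1 ≤ d := by
    have h1 := Nat.one_le_pow 2 κ hκ
    have := hCr.hd
    omega
  obtain ⟨CZ, hZ0, hCZ, hZ0p, hZ01, hZ'⟩ := hZ d lam κ A hCr
  obtain ⟨cM, hM0, hcM, hM0p, hM01, hM'⟩ := hMag d lam κ A hCr
  obtain ⟨CD, hCD, hDec'⟩ := hDec d lam κ A hCr
  obtain ⟨CS, hCS, hSum'⟩ := hSum d κ hκ hCr.hd
  obtain ⟨N, hN⟩ := dens_two d
  -- constants
  have hv0 : volume (bal (0 : Eu d) 1) ≠ 0 :=
    (Metric.measure_closedBall_pos volume (0 : Eu d) one_pos).ne'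
  have hvt : volume (bal (0 : Eu d) 1) ≠ ∞ := (dom_bal (0 : Eu d) 1).2.measure_lt_top.ne
  set vr : ℝ := (volume (bal (0 : Eu d) 1)).toReal with hvr
  have hvrp : 0 < vr := ENNReal.toReal_pos hv0 hvt
  have hvof : volume (bal (0 : Eu d) 1) = ENNReal.ofReal vr := (ENNReal.ofReal_toReal hvt).symm
  set c2 : ℝ := (1 / 2) ^ d * vr with hc2
  have hc2p : 0 < c2 := by positivity
  set C3 : ℝ := N / c2 with hC3
  have hC3n : 0 ≤ C3 := by positivity
  set C : ℝ := CZ + 1 + 4 * C3 + 8 * lam * (CD * CS) + 4 * lam * (2 ^ d * vr) * (CD * CS) with hCdef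
  have hCp : 0 < C := by positivity
  refine ⟨C, min hZ0 hM0, hCp, lt_min hZ0p hM0p, (min_le_left _ _).trans hZ01, ?_⟩
  intro r r' h m hr hrr hr2 hh0 hh hm
  obtain ⟨L0, hL0⟩ := hZ' r h m hr (hrr.trans hr2) hh0 (hh.trans (min_le_left _ _)) hm
  refine ⟨L0, ?_⟩
  intro L R Δ q₀ W hL hRm hRsub hΔ hDens hq₀ hW hWsub
  have hh1 : h ≤ 1 := (hh.trans (min_le_left _ _)).trans hZ01
  have hU : Dom (bal (0 : Eu d) L) := dom_bal _ _
  have hMag1 := hM' h hh0 (hh.trans (min_le_right _ _))
  set M : ℝ≥0∞ := Mag d lam 1 h with hMdef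
  have hMle : M ≤ 1 := (hP d lam 1 h hd zero_le_one hh1).2.1
  have hMt : M ≠ ∞ := (hMle.trans_lt ENNReal.one_lt_top).ne
  have hMpos : 0 < M := lt_of_lt_of_le (by exact_mod_cast hh0) hMag1.2
  set Mr : ℝ := M.toReal with hMr
  have hMrp : 0 < Mr := ENNReal.toReal_pos hMpos.ne' hMt
  have hMof : M = ENNReal.ofReal Mr := (ENNReal.ofReal_toReal hMt).symm
  have hmp : (0 : ℝ) < m := by exact_mod_cast hm
  set lam1 : ℝ≥0 := lamr d lam r with hlam1
  have hlam1le : lam1 ≤ lam := lamr_le lam hr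
  have hr0 : 0 ≤ r := by linarith
  have hMr1 : Mag d lam1 r h = M := (hSc d lam r hd (by linarith)).2 h hh1
  have i1 := isProb_leb hPr (lam1 * (1 - h)) hU
  have i2 := isProb_leb hPr (lam1 * h) hU
  set μ := (PL (leb (lam1 * (1 - h)) (bal (0 : Eu d) L))).prod
    (PL (leb (lam1 * h) (bal (0 : Eu d) L))) with hμ
  set D : ℝ := Δ * (m : ℝ) ^ (1 / (400 * (κ : ℝ))) with hDdef
  have hmpow : (1 : ℝ) ≤ (m : ℝ) ^ (1 / (400 * (κ : ℝ))) :=
    Real.one_le_rpow (by exact_mod_cast hm) (by positivity)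
  have hΔD : Δ ≤ D := le_mul_of_one_le_right (zero_le_one.trans hΔ) hmpow
  have hDp : 0 < D := by linarith
  set W' : Set (Eu d) := W \ nbd r' (R : Set (Eu d)) with hW'
  have hW'm : MeasurableSet W' := hW.diff (measurableSet_nbd_finset r' R)
  have hWvol : volume W ≤ ENNReal.ofReal (m * (2 ^ d * vr)) := by
    refine (measure_mono hWsub).trans ((volume_nbd_le R).trans ?_)
    rw [hRm, hvof, ← ENNReal.ofReal_mul (by positivity), ← ENNReal.ofReal_natCast,
      ← ENNReal.ofReal_mul (by positivity)]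
  have hW't : volume W' ≠ ∞ :=
    ((measure_mono sdiff_subset).trans_lt (hWvol.trans_lt ENNReal.ofReal_lt_top)).ne
  set w' : ℝ := (volume W').toReal with hw'
  have hw'0 : 0 ≤ w' := ENNReal.toReal_nonneg
  have hw'of : volume W' = ENNReal.ofReal w' := (ENNReal.ofReal_toReal hW't).symm
  -- the bound on two-point sums
  have hT : ∀ v : Eu d, ∑ x ∈ R, tp (ad r) (leb lam1 (bal (0 : Eu d) L)) v x
      ≤ ENNReal.ofReal (CD * CS * D) := by
    intro v
    have hRne : R.Nonempty := by
      rw [← Finset.card_pos, hRm]; omega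
    calc ∑ x ∈ R, tp (ad r) (leb lam1 (bal (0 : Eu d) L)) v x
        ≤ ∑ x ∈ R, ENNReal.ofReal (CD * (1 / (max 1 (dist x v)) ^ (d - κ))) := by
          refine Finset.sum_le_sum fun x _ => ?_
          refine ((hDec' r _ v x hr (hrr.trans hr2) hU).1).trans ?_
          rw [dist_comm, mul_one_div]
      _ = ENNReal.ofReal (CD * ∑ x ∈ R, 1 / (max 1 (dist x v)) ^ (d - κ)) := by
          rw [← ENNReal.ofReal_sum_of_nonneg (fun x _ => by positivity), Finset.mul_sum]
      _ ≤ ENNReal.ofReal (CD * CS * D) := by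
          refine ENNReal.ofReal_le_ofReal ?_
          have := hSum' κ R Δ v (Or.inl rfl) hRne hΔ hDens
          rw [hRm] at this
          rw [mul_assoc]
          refine mul_le_mul_of_nonneg_left ?_ hCD.le
          rw [hDdef, ← mul_assoc]
          exact this
  -- the functionals
  set q1 : Cfg (Eu d) × Cfg (Eu d) → ℝ≥0∞ :=
    fun q => volume (nbd r (LLs r (pt q.1) (pt q.2) W) ∩ nbd r' (R : Set (Eu d))) with hq1
  set Qb : Cfg (Eu d) × Cfg (Eu d) → ℝ≥0∞ :=
    fun q => volume (nbd r (LLs r (pt q.1) (pt q.2) W) ∩ W') with hQb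
  set q2 : Cfg (Eu d) × Cfg (Eu d) → ℝ≥0∞ :=
    fun q => volume (nbd r (LLs r (pt q.1) (pt q.2) W) ∩ W) with hq2
  set Zb : Cfg (Eu d) × Cfg (Eu d) → ℝ≥0∞ := fun q => Zbc r (pt q.1) (pt q.2) W R with hZb
  have hS : MeasurableSet {q : (Cfg (Eu d) × Cfg (Eu d)) × Eu d |
      q.2 ∈ nbd r (LLs r (pt q.1.1) (pt q.1.2) W)} :=
    RS.memNbdLLs hMS hO hR hC (RS.pt.comp (measurable_fst.comp measurable_fst))
      (RS.pt.comp (measurable_snd.comp measurable_fst)) hW r r measurable_snd
  have hvolm : ∀ V : Set (Eu d), MeasurableSet V → Measurable fun q : Cfg (Eu d) × Cfg (Eu d) =>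
      volume (nbd r (LLs r (pt q.1) (pt q.2) W) ∩ V) := by
    intro V hV
    exact measurable_measure_prodMk_left (hS.inter (measurable_snd hV))
  have hZbm : Measurable Zb := RS.zbc hMS hO hR hC (RS.pt.comp measurable_fst)
    (RS.pt.comp measurable_snd) hW r R
  -- the three events
  have hsplit : {q | q1 q < ENNReal.ofReal q₀} ⊆
      {q | num R (gco r (pt q.1) (pt q.2)) < ENNReal.ofReal (m / 2) * M} ∪
      ({q | ENNReal.ofReal q₀ ≤ Qb q} ∪
      {q | q1 q < ENNReal.ofReal q₀ ∧ Qb q < ENNReal.ofReal q₀ ∧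
        ENNReal.ofReal (m / 2) * M ≤ num R (gco r (pt q.1) (pt q.2))}) := by
    intro q hq
    by_cases h1 : num R (gco r (pt q.1) (pt q.2)) < ENNReal.ofReal (m / 2) * M
    · exact Or.inl h1
    · by_cases h2 : ENNReal.ofReal q₀ ≤ Qb q
      · exact Or.inr (Or.inl h2)
      · exact Or.inr (Or.inr ⟨hq, not_le.1 h2, not_lt.1 h1⟩)
  have hA1 : μ {q | num R (gco r (pt q.1) (pt q.2)) < ENNReal.ofReal (m / 2) * M}
      ≤ ENNReal.ofReal (CZ * (D / (m * Mr))) := hL0 L R Δ hL hRm hRsub hΔ hDens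
  have hA2 : μ {q | ENNReal.ofReal q₀ ≤ Qb q} ≤ ENNReal.ofReal (Mr * w' / q₀) := by
    refine (meas_ge_le_lintegral_div (hvolm W' hW'm).aemeasurable
      (ENNReal.ofReal_pos.2 hq₀).ne' ENNReal.ofReal_ne_top).trans ?_
    rw [ENNReal.ofReal_div_of_pos hq₀]
    refine ENNReal.div_le_div_right ?_ _
    refine (mean_vol hP hPr hMS hO hR hC hd hr0 hh1 hU hW hW'm).trans ?_
    rw [hMr1, hMof, hw'of, ← ENNReal.ofReal_mul hMrp.le]
  have hA3 : μ {q | q1 q < ENNReal.ofReal q₀ ∧ Qb q < ENNReal.ofReal q₀ ∧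
      ENNReal.ofReal (m / 2) * M ≤ num R (gco r (pt q.1) (pt q.2))}
      ≤ ENNReal.ofReal (4 * C3 * (D * q₀ / (m * Mr)) + 8 * lam * (CD * CS) * (D * q₀ / (m * Mr))
        + 4 * lam * (2 ^ d * vr) * (CD * CS) * (D * h / Mr)) := by
    by_cases hbig : m * Mr / 4 ≤ C3 * Δ * q₀
    · refine (prob_le_one).trans ?_
      rw [← ENNReal.ofReal_one]
      refine ENNReal.ofReal_le_ofReal ?_
      have h4 : 1 ≤ 4 * C3 * (D * q₀ / (m * Mr)) := by
        rw [← mul_div_assoc, le_div_iff₀ (by positivity)]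
        have e1 : C3 * Δ * q₀ ≤ C3 * D * q₀ :=
          mul_le_mul_of_nonneg_right (mul_le_mul_of_nonneg_left hΔD hC3n) hq₀.le
        have e2 : 4 * C3 * (D * q₀) = 4 * (C3 * D * q₀) := by ring
        rw [one_mul, e2]
        linarith only [hbig, e1]
      have h5 : 0 ≤ 8 * lam * (CD * CS) * (D * q₀ / (m * Mr)) := by positivity
      have h6 : 0 ≤ 4 * lam * (2 ^ d * vr) * (CD * CS) * (D * h / Mr) := by positivity
      linarith
    · push Not at hbig
      have hsub : {q | q1 q < ENNReal.ofReal q₀ ∧ Qb q < ENNReal.ofReal q₀ ∧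
          ENNReal.ofReal (m / 2) * M ≤ num R (gco r (pt q.1) (pt q.2))} ⊆
          {q | ENNReal.ofReal (m * Mr / 4) ≤ ind (q2 q ≤ ENNReal.ofReal (2 * q₀)) * Zb q} := by
        rintro q ⟨ha, hb, hc⟩
        have hle : q2 q ≤ ENNReal.ofReal (2 * q₀) := by
          have : q2 q ≤ q1 q + Qb q := by
            refine (measure_mono ?_).trans (measure_union_le _ _)
            rintro e ⟨he, heW⟩
            by_cases heR : e ∈ nbd r' (R : Set (Eu d))
            · exact Or.inl ⟨he, heR⟩
            · exact Or.inr ⟨he, heW, heR⟩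
          refine this.trans ?_
          rw [two_mul, ENNReal.ofReal_add hq₀.le hq₀.le]
          exact add_le_add ha.le hb.le
        have hza : num R (fun x => x ∈ nbd r (LLs r (pt q.1) (pt q.2) W))
            ≤ ENNReal.ofReal (m * Mr / 4) := by
          have h7 := za_bound hN hr hrr hr2 (by linarith : (0:ℝ) ≤ Δ)
            (LLs r (pt q.1) (pt q.2) W) R hDens
          have h8 : num R (fun x => x ∈ nbd r (LLs r (pt q.1) (pt q.2) W)) *
              ENNReal.ofReal c2 ≤ ENNReal.ofReal (N * Δ) * ENNReal.ofReal q₀ := by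
            rw [volume_bal_half, hvof, ← ENNReal.ofReal_mul (by positivity)] at h7
            exact h7.trans (mul_le_mul_right ha.le _)
          rw [← ENNReal.ofReal_mul (by positivity)] at h8
          have h9 : num R (fun x => x ∈ nbd r (LLs r (pt q.1) (pt q.2) W))
              ≤ ENNReal.ofReal (N * Δ * q₀) / ENNReal.ofReal c2 := by
            rw [ENNReal.le_div_iff_mul_le (Or.inl (ENNReal.ofReal_pos.2 hc2p).ne')
              (Or.inl ENNReal.ofReal_ne_top)]
            exact h8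
          refine h9.trans ?_
          rw [← ENNReal.ofReal_div_of_pos hc2p]
          refine ENNReal.ofReal_le_ofReal ?_
          have : N * Δ * q₀ / c2 = C3 * Δ * q₀ := by rw [hC3]; ring
          rw [this]
          exact hbig.le
        have hdec := hD d r (pt q.1) (pt q.2) W R hr0 (pt_finite _) (pt_finite _)
        show ENNReal.ofReal (m * Mr / 4) ≤ ind (q2 q ≤ ENNReal.ofReal (2 * q₀)) * Zb q
        rw [ind_of hle, one_mul]
        have h10 : ENNReal.ofReal (m * Mr / 4) + ENNReal.ofReal (m * Mr / 4)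
            ≤ ENNReal.ofReal (m * Mr / 4) + Zb q := by
          calc ENNReal.ofReal (m * Mr / 4) + ENNReal.ofReal (m * Mr / 4)
              = ENNReal.ofReal (m / 2) * M := by
                rw [hMof, ← ENNReal.ofReal_mul (by positivity),
                  ← ENNReal.ofReal_add (by positivity) (by positivity)]
                congr 1; ring
            _ ≤ num R (gco r (pt q.1) (pt q.2)) := hc
            _ ≤ num R (fun x => x ∈ nbd r (LLs r (pt q.1) (pt q.2) W)) + Zb q := hdec
            _ ≤ _ := add_le_add_left hza _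
        exact (ENNReal.add_le_add_iff_left ENNReal.ofReal_ne_top).1 h10
      refine (measure_mono hsub).trans ?_
      have hfm : Measurable fun q => ind (q2 q ≤ ENNReal.ofReal (2 * q₀)) * Zb q :=
        (measurable_ind (measurableSet_le (hvolm W hW) measurable_const)).mul hZbm
      have hpos : 0 < m * Mr / 4 := by positivity
      refine (meas_ge_le_lintegral_div hfm.aemeasurable (ENNReal.ofReal_pos.2 hpos).ne'
        ENNReal.ofReal_ne_top).trans ?_
      have hEE := hE d r lam1 h (bal (0 : Eu d) L) W R (ENNReal.ofReal (2 * q₀))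
        (ENNReal.ofReal (CD * CS * D)) hd hr0 hh1 hU hW hT
      have hnum : (lam1 * ENNReal.ofReal (2 * q₀) + lam1 * h * volume (W ∩ bal (0 : Eu d) L)) *
          ENNReal.ofReal (CD * CS * D)
          ≤ ENNReal.ofReal ((lam * (2 * q₀) + lam * h * (m * (2 ^ d * vr))) * (CD * CS * D)) := by
        have e1 : (lam1 : ℝ≥0∞) ≤ ENNReal.ofReal lam := by
          rw [ENNReal.ofReal_coe_nnreal]; exact_mod_cast hlam1le
        have e2 : (h : ℝ≥0∞) = ENNReal.ofReal h := by rw [ENNReal.ofReal_coe_nnreal]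
        have e3 : volume (W ∩ bal (0 : Eu d) L) ≤ ENNReal.ofReal (m * (2 ^ d * vr)) :=
          (measure_mono inter_subset_left).trans hWvol
        have hRR : ENNReal.ofReal ((lam * (2 * q₀) + lam * h * (m * (2 ^ d * vr))) *
            (CD * CS * D)) = (ENNReal.ofReal lam * ENNReal.ofReal (2 * q₀) +
            ENNReal.ofReal lam * ENNReal.ofReal h * ENNReal.ofReal (m * (2 ^ d * vr))) *
            ENNReal.ofReal (CD * CS * D) := by
          rw [← ENNReal.ofReal_mul (by positivity : (0 : ℝ) ≤ lam),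
            ← ENNReal.ofReal_mul (by positivity : (0 : ℝ) ≤ lam),
            ← ENNReal.ofReal_mul (by positivity : (0 : ℝ) ≤ lam * h),
            ← ENNReal.ofReal_add (by positivity) (by positivity),
            ← ENNReal.ofReal_mul (by positivity)]
        rw [hRR, ← e2]
        gcongr
      rw [ENNReal.div_le_iff (ENNReal.ofReal_pos.2 hpos).ne' ENNReal.ofReal_ne_top]
      refine hEE.trans (hnum.trans ?_)
      rw [← ENNReal.ofReal_mul (by positivity)]
      refine ENNReal.ofReal_le_ofReal ?_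
      have e5 : (4 * C3 * (D * q₀ / (m * Mr)) + 8 * lam * (CD * CS) * (D * q₀ / (m * Mr))
          + 4 * lam * (2 ^ d * vr) * (CD * CS) * (D * h / Mr)) * (m * Mr / 4)
          = C3 * D * q₀ + 2 * lam * (CD * CS) * D * q₀
            + lam * (2 ^ d * vr) * (CD * CS) * D * h * m := by
        field_simp
        ring
      rw [e5]
      have e6 : 0 ≤ C3 * D * q₀ := by positivity
      have e7 : (lam * (2 * q₀) + lam * h * (m * (2 ^ d * vr))) * (CD * CS * D)
          = 2 * lam * (CD * CS) * D * q₀ + lam * (2 ^ d * vr) * (CD * CS) * D * h * m := by ring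
      rw [e7]
      linarith only [e6]
  -- conclusion
  calc μ {q | q1 q < ENNReal.ofReal q₀}
      ≤ μ {q | num R (gco r (pt q.1) (pt q.2)) < ENNReal.ofReal (m / 2) * M} +
        (μ {q | ENNReal.ofReal q₀ ≤ Qb q} +
        μ {q | q1 q < ENNReal.ofReal q₀ ∧ Qb q < ENNReal.ofReal q₀ ∧
          ENNReal.ofReal (m / 2) * M ≤ num R (gco r (pt q.1) (pt q.2))}) :=
        (measure_mono hsplit).trans ((measure_union_le _ _).trans
          (add_le_add_right (measure_union_le _ _) _))
    _ ≤ ENNReal.ofReal (CZ * (D / (m * Mr))) + (ENNReal.ofReal (Mr * w' / q₀) +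
        ENNReal.ofReal (4 * C3 * (D * q₀ / (m * Mr)) + 8 * lam * (CD * CS) * (D * q₀ / (m * Mr))
        + 4 * lam * (2 ^ d * vr) * (CD * CS) * (D * h / Mr))) :=
        add_le_add hA1 (add_le_add hA2 hA3)
    _ = ENNReal.ofReal (CZ * (D / (m * Mr)) + (Mr * w' / q₀ +
        (4 * C3 * (D * q₀ / (m * Mr)) + 8 * lam * (CD * CS) * (D * q₀ / (m * Mr))
        + 4 * lam * (2 ^ d * vr) * (CD * CS) * (D * h / Mr)))) := by
        rw [← ENNReal.ofReal_add (by positivity) (by positivity),
          ← ENNReal.ofReal_add (by positivity) (by positivity)]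
    _ ≤ ENNReal.ofReal (C * (D * (1 / (m * Mr) + q₀ / (m * Mr) + h / Mr) + Mr * w' / q₀)) := by
        refine ENNReal.ofReal_le_ofReal ?_
        have a1 : 0 ≤ D / (m * Mr) := by positivity
        have a2 : 0 ≤ D * q₀ / (m * Mr) := by positivity
        have a3 : 0 ≤ D * h / Mr := by positivity
        have a4 : 0 ≤ Mr * w' / q₀ := by positivity
        have b1 : D * (1 / (m * Mr) + q₀ / (m * Mr) + h / Mr)
            = D / (m * Mr) + D * q₀ / (m * Mr) + D * h / Mr := by ring
        have c1 : CZ ≤ C := by rw [hCdef]; have : 0 ≤ 1 + 4 * C3 + 8 * lam * (CD * CS) +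
          4 * lam * (2 ^ d * vr) * (CD * CS) := by positivity
                               linarith
        have c2' : 4 * C3 + 8 * lam * (CD * CS) ≤ C := by
          rw [hCdef]
          have : 0 ≤ CZ + 1 + 4 * lam * (2 ^ d * vr) * (CD * CS) := by positivity
          linarith
        have c3 : 4 * lam * (2 ^ d * vr) * (CD * CS) ≤ C := by
          rw [hCdef]
          have : 0 ≤ CZ + 1 + 4 * C3 + 8 * lam * (CD * CS) := by positivity
          linarith
        have c4 : 1 ≤ C := by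
          rw [hCdef]
          have : 0 ≤ CZ + 4 * C3 + 8 * lam * (CD * CS) + 4 * lam * (2 ^ d * vr) * (CD * CS) := by
            positivity
          linarith
        rw [b1]
        have d1 := mul_le_mul_of_nonneg_right c1 a1
        have d2 := mul_le_mul_of_nonneg_right c2' a2
        have d3 := mul_le_mul_of_nonneg_right c3 a3
        have d4 := mul_le_mul_of_nonneg_right c4 a4
        have e8 : 8 * lam * (CD * CS) * (D * q₀ / (m * Mr)) + 4 * C3 * (D * q₀ / (m * Mr))
            = (4 * C3 + 8 * lam * (CD * CS)) * (D * q₀ / (m * Mr)) := by ring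
        linarith only [d1, d2, d3, d4, e8]

end Pool.Agent.Lib.MP_5349a4_pr.H98
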