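import Pool.Agent.Lib.MP_5349a4_pr.M.Base
import Pool.Agent.Lib.MP_5349a4_pr.M.Iface3

/-!
# WETV: volume of the explored region outside the `1 + e_k`-neighbourhood
-/

set_option autoImplicit false
open MeasureTheory Set
open scoped ENNReal NNReal

namespace Pool.Agent.Lib.MP_5349a4_pr.H98.Wet

variable {d : ℕ}

theorem bern (n : ℕ) {x : ℝ} (h0 : 0 ≤ x) (h1 : x ≤ 1) : (1 + x) ^ n ≤ 1 + (2 ^ n - 1) * x := by
  induction n with
  | zero => simp
  | succ n ih =>
    have h2 : (0:ℝ) ≤ 2 ^ n - 1 := by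
      have := one_le_pow₀ (n := n) (show (1:ℝ) ≤ 2 by norm_num)
      linarith
    have h3 : x * x ≤ x := by nlinarith
    calc (1 + x) ^ (n + 1) = (1 + x) ^ n * (1 + x) := pow_succ _ _
      _ ≤ (1 + (2 ^ n - 1) * x) * (1 + x) := by gcongr
      _ = 1 + (2 ^ n - 1) * x + x + (2 ^ n - 1) * (x * x) := by ring
      _ ≤ 1 + (2 ^ n - 1) * x + x + (2 ^ n - 1) * x := by gcongr
      _ = 1 + (2 ^ (n + 1) - 1) * x := by ring

/-- volume of a spherical shell -/
theorem vol_shell (d : ℕ) (u : Eu d) {e : ℝ} (h0 : 0 ≤ e) (h1 : e ≤ 1) :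
    volume (Metric.closedBall u (1 + e) \ Metric.closedBall u 1)
      ≤ ENNReal.ofReal (2 ^ d * e) * volume (Metric.closedBall (0 : Eu d) 1) := by
  have hsub : Metric.closedBall u 1 ⊆ Metric.closedBall u (1 + e) :=
    Metric.closedBall_subset_closedBall (by linarith)
  have hfin : volume (Metric.closedBall (0 : Eu d) 1) ≠ ∞ := measure_closedBall_lt_top.ne
  rw [measure_sdiff hsub Metric.isClosed_closedBall.measurableSet.nullMeasurableSet
    measure_closedBall_lt_top.ne]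
  have e1 : volume (Metric.closedBall u (1 + e))
      = ENNReal.ofReal ((1 + e) ^ d) * volume (Metric.closedBall (0 : Eu d) 1) := by
    rw [Measure.addHaar_closedBall volume u (by linarith : (0 : ℝ) ≤ 1 + e),
      Measure.addHaar_closedBall volume (0 : Eu d) (by norm_num : (0 : ℝ) ≤ 1)]
    simp
  have e2 : volume (Metric.closedBall u 1) = volume (Metric.closedBall (0 : Eu d) 1) := by
    rw [Measure.addHaar_closedBall volume u (by norm_num : (0 : ℝ) ≤ 1),
      Measure.addHaar_closedBall volume (0 : Eu d) (by norm_num : (0 : ℝ) ≤ 1)]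
  rw [e1, e2, tsub_le_iff_right]
  have hb := bern d h0 h1
  calc ENNReal.ofReal ((1 + e) ^ d) * volume (Metric.closedBall (0 : Eu d) 1)
      ≤ ENNReal.ofReal (2 ^ d * e + 1) * volume (Metric.closedBall (0 : Eu d) 1) := by
        gcongr
        nlinarith
    _ = _ := by
        rw [ENNReal.ofReal_add (by positivity) zero_le_one, ENNReal.ofReal_one, add_mul, one_mul]

/-- geometric sum -/
theorem geo (m0 : ℕ) {γ : ℝ} (hγ : 1 / 2 ≤ γ) (k : ℕ) :
    ∑ l ∈ Finset.range k, ((2 ^ l * m0 : ℕ) : ℝ) ^ γ ≤ 3 * ((2 ^ k * m0 : ℕ) : ℝ) ^ γ := by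
  have h43 : (4 / 3 : ℝ) ≤ 2 ^ γ := by
    have h1 : (4 / 3 : ℝ) ≤ 2 ^ (1 / 2 : ℝ) := by
      rw [← Real.sqrt_eq_rpow]
      apply Real.le_sqrt_of_sq_le
      norm_num
    exact h1.trans (Real.rpow_le_rpow_of_exponent_le (by norm_num) hγ)
  induction k with
  | zero =>
    rw [Finset.sum_range_zero]; positivity
  | succ k ih =>
    rw [Finset.sum_range_succ]
    have e1 : ((2 ^ (k + 1) * m0 : ℕ) : ℝ) ^ γ = 2 ^ γ * ((2 ^ k * m0 : ℕ) : ℝ) ^ γ := by
      rw [← Real.mul_rpow (by norm_num) (by positivity)]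
      congr 1
      push_cast
      ring
    rw [e1]
    have h0 : (0:ℝ) ≤ ((2 ^ k * m0 : ℕ) : ℝ) ^ γ := by positivity
    nlinarith

theorem wetv (hI : InvDStatement) : WetVStatement := by
  intro d κ hd hκ
  set v := volume (Metric.closedBall (0 : Eu d) 1) with hv
  have hvfin : v ≠ ∞ := measure_closedBall_lt_top.ne
  have hκ' : (1:ℝ) ≤ κ := by exact_mod_cast hκ
  set β : ℝ := 1 / (6 * (κ : ℝ)) with hβ
  have hβ0 : 0 < β := by positivity
  have hβ1 : β ≤ 1 / 2 := by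
    rw [hβ, div_le_div_iff₀ (by positivity) (by norm_num)]
    linarith
  refine ⟨6 * 2 ^ d * (v.toReal + 1), by positivity, ?_⟩
  intro m0 k P o hm0 hP hG hgood
  have hLF : LF P := fun A _ => hP.subset inter_subset_left
  obtain ⟨H1, -, -, -, -, -, H7, -⟩ := hI d P P o hLF hLF
  have hmono : Monotone fun j => inv P o j := monotone_nat_of_le_succ fun j => (H1 j).1
  set n := 2 ^ k * m0 with hn
  have hn1 : 1 ≤ n := Nat.one_le_iff_ne_zero.2 (by positivity)
  set ee : ℕ → ℝ := fun l => ((2 ^ l * m0 : ℕ) : ℝ) ^ (-β) with hee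
  have hee0 : ∀ l, 0 ≤ ee l := fun l => by positivity
  have hee1 : ∀ l, ee l ≤ 1 := by
    intro l
    have h1 : (1:ℝ) ≤ ((2 ^ l * m0 : ℕ) : ℝ) := by
      have : 1 ≤ 2 ^ l * m0 := Nat.one_le_iff_ne_zero.2 (by positivity)
      exact_mod_cast this
    exact Real.rpow_le_one_of_one_le_of_nonpos h1 (by linarith)
  -- the finite sets
  set F : ℕ → Finset (Eu d) := fun l => (H1 (2 ^ (l + 1) * m0 - 1)).2.2.toFinset with hF
  have hFc : ∀ l, (F l).card ≤ 2 ^ (l + 1) * m0 := by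
    intro l
    have h1 := (H7 hG (2 ^ (l + 1) * m0 - 1)).1
    have h2 : 1 ≤ 2 ^ (l + 1) * m0 := Nat.one_le_iff_ne_zero.2 (by positivity)
    rw [Set.ncard_eq_toFinset_card _ (H1 (2 ^ (l + 1) * m0 - 1)).2.2] at h1
    exact h1.trans (by omega)
  have hcov : wet P o n \ nbd (1 + (n : ℝ) ^ (-β)) (inv P o n)
      ⊆ ⋃ l ∈ Finset.range k, ⋃ u ∈ F l,
        (Metric.closedBall u (1 + ee l) \ Metric.closedBall u 1) := by
    rintro e ⟨⟨j, hj, hej⟩, hne⟩
    have hjle := hgood j hj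
    have hne' : ∀ u ∈ inv P o n, 1 + (n : ℝ) ^ (-β) < dist e u := by
      intro u hu
      by_contra hcon
      exact hne ⟨u, hu, not_lt.1 hcon⟩
    have hemp : (inv P o j).Nonempty := ⟨o, hmono (Nat.zero_le j) (by simp [inv])⟩
    obtain ⟨u, hu, hue⟩ : ∃ u ∈ inv P o j, Metric.infEDist e (inv P o j) = edist e u := by
      exact (H1 j).2.2.isCompact.exists_infEDist_eq_edist hemp e
    have hthr0 : 0 ≤ thr κ m0 j := by
      unfold thr
      split_ifs
      · exact zero_le_one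
      · positivity
    have hdist : dist e u ≤ thr κ m0 j := by
      have h1 : edist e u ≤ ENNReal.ofReal (thr κ m0 j) := by
        rw [← hue]; exact hej.trans hjle
      rw [edist_dist] at h1
      exact (ENNReal.ofReal_le_ofReal_iff hthr0).1 h1
    have hun : u ∈ inv P o n := hmono hj.le hu
    have hgt := hne' u hun
    have hn0 : 0 ≤ (n : ℝ) ^ (-β) := by positivity
    by_cases hjm : j < m0
    · exfalso
      rw [thr, if_pos hjm] at hdist
      linarith
    · rw [thr, if_neg hjm] at hdist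
      have hq : j / m0 ≠ 0 := by
        have : 1 ≤ j / m0 := (Nat.one_le_div_iff (by omega)).2 (by omega)
        omega
      set l := Nat.log 2 (j / m0) with hl
      have h1 : j / m0 < 2 ^ (l + 1) := Nat.lt_pow_succ_log_self (by norm_num) _
      have h2 : 2 ^ l ≤ j / m0 := Nat.pow_log_le_self 2 hq
      have h3 : j < 2 ^ (l + 1) * m0 := (Nat.div_lt_iff_lt_mul (by omega)).1 h1
      have h4 : l < k := by
        have h5 : j / m0 < 2 ^ k := (Nat.div_lt_iff_lt_mul (by omega)).2 hj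
        exact (Nat.pow_lt_pow_iff_right (by norm_num : 1 < 2)).1 (h2.trans_lt h5)
      refine mem_iUnion₂.2 ⟨l, Finset.mem_range.2 h4, mem_iUnion₂.2 ⟨u, ?_, ?_, ?_⟩⟩
      · rw [hF]
        exact (Set.Finite.mem_toFinset _).2 (hmono (by omega) hu)
      · exact Metric.mem_closedBall.2 hdist
      · intro hc
        rw [Metric.mem_closedBall] at hc
        linarith
  have hγ : 1 / 2 ≤ 1 - β := by linarith
  have hterm : ∀ l, ((2 ^ (l + 1) * m0 : ℕ) : ℝ) * (2 ^ d * ee l)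
      = 2 * 2 ^ d * ((2 ^ l * m0 : ℕ) : ℝ) ^ (1 - β) := by
    intro l
    have hp : (0:ℝ) < ((2 ^ l * m0 : ℕ) : ℝ) := by
      have : 0 < 2 ^ l * m0 := by positivity
      exact_mod_cast this
    have e1 : ((2 ^ l * m0 : ℕ) : ℝ) ^ (1 - β) = ((2 ^ l * m0 : ℕ) : ℝ) * ee l := by
      rw [hee, sub_eq_add_neg, Real.rpow_add hp, Real.rpow_one]
    have e2 : ((2 ^ (l + 1) * m0 : ℕ) : ℝ) = 2 * ((2 ^ l * m0 : ℕ) : ℝ) := by
      push_cast; ring
    rw [e1, e2]
    ring
  calc volume (wet P o n \ nbd (1 + (n : ℝ) ^ (-β)) (inv P o n))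
      ≤ volume (⋃ l ∈ Finset.range k, ⋃ u ∈ F l,
        (Metric.closedBall u (1 + ee l) \ Metric.closedBall u 1)) := measure_mono hcov
    _ ≤ ∑ l ∈ Finset.range k, volume (⋃ u ∈ F l,
        (Metric.closedBall u (1 + ee l) \ Metric.closedBall u 1)) :=
        measure_biUnion_finset_le _ _
    _ ≤ ∑ l ∈ Finset.range k, ∑ u ∈ F l,
        volume (Metric.closedBall u (1 + ee l) \ Metric.closedBall u 1) :=
        Finset.sum_le_sum fun l _ => measure_biUnion_finset_le _ _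
    _ ≤ ∑ l ∈ Finset.range k, ∑ u ∈ F l, ENNReal.ofReal (2 ^ d * ee l) * v :=
        Finset.sum_le_sum fun l _ => Finset.sum_le_sum fun u _ => vol_shell d u (hee0 l) (hee1 l)
    _ = ∑ l ∈ Finset.range k, (F l).card * (ENNReal.ofReal (2 ^ d * ee l) * v) := by
        simp only [Finset.sum_const, nsmul_eq_mul]
    _ ≤ ∑ l ∈ Finset.range k,
        ENNReal.ofReal (2 * 2 ^ d * ((2 ^ l * m0 : ℕ) : ℝ) ^ (1 - β)) * v := by
        refine Finset.sum_le_sum fun l _ => ?_
        rw [← hterm l, ENNReal.ofReal_mul (Nat.cast_nonneg (2 ^ (l + 1) * m0)),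
          ENNReal.ofReal_natCast, mul_assoc]
        have hc : ((F l).card : ℝ≥0∞) ≤ ((2 ^ (l + 1) * m0 : ℕ) : ℝ≥0∞) := by
          exact_mod_cast hFc l
        exact mul_le_mul_left hc _
    _ = ENNReal.ofReal (2 * 2 ^ d * ∑ l ∈ Finset.range k, ((2 ^ l * m0 : ℕ) : ℝ) ^ (1 - β)) * v := by
        rw [← Finset.sum_mul, ← ENNReal.ofReal_sum_of_nonneg (fun l _ => by positivity),
          Finset.mul_sum]
    _ ≤ ENNReal.ofReal (2 * 2 ^ d * (3 * (n : ℝ) ^ (1 - β))) * v := by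
        gcongr
        exact geo m0 hγ k
    _ = ENNReal.ofReal (2 * 2 ^ d * (3 * (n : ℝ) ^ (1 - β)) * v.toReal) := by
        rw [ENNReal.ofReal_mul (by positivity : (0:ℝ) ≤ 2 * 2 ^ d * (3 * (n : ℝ) ^ (1 - β))),
          ENNReal.ofReal_toReal hvfin]
    _ ≤ ENNReal.ofReal (6 * 2 ^ d * (v.toReal + 1) * (n : ℝ) ^ (1 - β)) := by
        refine ENNReal.ofReal_le_ofReal ?_
        have : 0 ≤ 6 * 2 ^ d * (n : ℝ) ^ (1 - β) := by positivity
        nlinarith

end Pool.Agent.Lib.MP_5349a4_pr.H98.Wet
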