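import Pool.Agent.Lib.MP_5349a4_pr.M.H10.Dens
import Pool.Agent.Lib.MP_5349a4_pr.M.H10.Munv
import Pool.Agent.Lib.MP_5349a4_pr.M.H10.Sumr
import Pool.Agent.Lib.MP_5349a4_pr.M.H12.Gsb
import Pool.Agent.Lib.MP_5349a4_pr.M.H12.Rec
import Pool.Agent.Lib.MP_5349a4_pr.M.H12.Typ
import Pool.Agent.Lib.MP_5349a4_pr.M.H15.Fore
import Pool.Agent.Lib.MP_5349a4_pr.M.H15.InvSc
import Pool.Agent.Lib.MP_5349a4_pr.M.H15.Shel
import Pool.Agent.Lib.MP_5349a4_pr.M.H16.Img
import Pool.Agent.Lib.MP_5349a4_pr.M.H16.MOps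
import Pool.Agent.Lib.MP_5349a4_pr.M.H16.MSum
import Pool.Agent.Lib.MP_5349a4_pr.M.H16.RevD
import Pool.Agent.Lib.MP_5349a4_pr.M.H16.Tree
import Pool.Agent.Lib.MP_5349a4_pr.M.H17.Grow
import Pool.Agent.Lib.MP_5349a4_pr.M.H17.Rad
import Pool.Agent.Lib.MP_5349a4_pr.M.H22.Ptw
import Pool.Agent.Lib.MP_5349a4_pr.M.H22.Vol
import Pool.Agent.Lib.MP_5349a4_pr.M.H23.Res
import Pool.Agent.Lib.MP_5349a4_pr.M.H23.Sec
import Pool.Agent.Lib.MP_5349a4_pr.M.H27.Camp
import Pool.Agent.Lib.MP_5349a4_pr.M.H27.Lip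
import Pool.Agent.Lib.MP_5349a4_pr.M.H27.Prob
import Pool.Agent.Lib.MP_5349a4_pr.M.H27.Pz
import Pool.Agent.Lib.MP_5349a4_pr.M.H27.Rotm
import Pool.Agent.Lib.MP_5349a4_pr.M.H27.Scal
import Pool.Agent.Lib.MP_5349a4_pr.M.H29.Mag
import Pool.Agent.Lib.MP_5349a4_pr.M.H30.Expl
import Pool.Agent.Lib.MP_5349a4_pr.M.H30.Hpb
import Pool.Agent.Lib.MP_5349a4_pr.M.H30.Slg
import Pool.Agent.Lib.MP_5349a4_pr.M.H30.Smp
import Pool.Agent.Lib.MP_5349a4_pr.M.H30.Wsl
import Pool.Agent.Lib.MP_5349a4_pr.M.H31.Magp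
import Pool.Agent.Lib.MP_5349a4_pr.M.H31.Reva
import Pool.Agent.Lib.MP_5349a4_pr.M.H38.Mecke
import Pool.Agent.Lib.MP_5349a4_pr.M.H38.Subs
import Pool.Agent.Lib.MP_5349a4_pr.M.H39.Badn
import Pool.Agent.Lib.MP_5349a4_pr.M.H43.State
import Pool.Agent.Lib.MP_5349a4_pr.M.H47.Proc
import Pool.Agent.Lib.MP_5349a4_pr.M.H47.StatZ
import Pool.Agent.Lib.MP_5349a4_pr.M.H47.Super
import Pool.Agent.Lib.MP_5349a4_pr.M.H47.Tauf
import Pool.Agent.Lib.MP_5349a4_pr.M.H48.Conm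
import Pool.Agent.Lib.MP_5349a4_pr.M.H48.Two
import Pool.Agent.Lib.MP_5349a4_pr.M.H53.Slb
import Pool.Agent.Lib.MP_5349a4_pr.M.H53.Spr
import Pool.Agent.Lib.MP_5349a4_pr.M.H53.Step
import Pool.Agent.Lib.MP_5349a4_pr.M.H54.Rev
import Pool.Agent.Lib.MP_5349a4_pr.M.H58.Clb
import Pool.Agent.Lib.MP_5349a4_pr.M.H58.Lens
import Pool.Agent.Lib.MP_5349a4_pr.M.H59.BadM
import Pool.Agent.Lib.MP_5349a4_pr.M.H59.GenF
import Pool.Agent.Lib.MP_5349a4_pr.M.H59.PGen
import Pool.Agent.Lib.MP_5349a4_pr.M.H63.Thma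
import Pool.Agent.Lib.MP_5349a4_pr.M.H65.GVol
import Pool.Agent.Lib.MP_5349a4_pr.M.H65.Resamp
import Pool.Agent.Lib.MP_5349a4_pr.M.H68.Pair
import Pool.Agent.Lib.MP_5349a4_pr.M.H7.COUNT
import Pool.Agent.Lib.MP_5349a4_pr.M.H70.Boot
import Pool.Agent.Lib.MP_5349a4_pr.M.H70.Decr
import Pool.Agent.Lib.MP_5349a4_pr.M.H70.Errb
import Pool.Agent.Lib.MP_5349a4_pr.M.H70.Near
import Pool.Agent.Lib.MP_5349a4_pr.M.H72.Meet
import Pool.Agent.Lib.MP_5349a4_pr.M.H72.TypI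
import Pool.Agent.Lib.MP_5349a4_pr.M.H74.Paire
import Pool.Agent.Lib.MP_5349a4_pr.M.H77.Stage
import Pool.Agent.Lib.MP_5349a4_pr.M.H78.Compar
import Pool.Agent.Lib.MP_5349a4_pr.M.H78.Rot
import Pool.Agent.Lib.MP_5349a4_pr.M.H78.Secm
import Pool.Agent.Lib.MP_5349a4_pr.M.H80.Deg
import Pool.Agent.Lib.MP_5349a4_pr.M.H80.StatD
import Pool.Agent.Lib.MP_5349a4_pr.M.H80.Typ
import Pool.Agent.Lib.MP_5349a4_pr.M.H81.Far
import Pool.Agent.Lib.MP_5349a4_pr.M.H81.Vst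
import Pool.Agent.Lib.MP_5349a4_pr.M.H82.Att
import Pool.Agent.Lib.MP_5349a4_pr.M.H83.InvD
import Pool.Agent.Lib.MP_5349a4_pr.M.H84.Invm
import Pool.Agent.Lib.MP_5349a4_pr.M.H84.Subc
import Pool.Agent.Lib.MP_5349a4_pr.M.H84.Tinf
import Pool.Agent.Lib.MP_5349a4_pr.M.H91.Cnte
import Pool.Agent.Lib.MP_5349a4_pr.M.H91.Pos
import Pool.Agent.Lib.MP_5349a4_pr.M.H92.Bk
import Pool.Agent.Lib.MP_5349a4_pr.M.H92.Tg
import Pool.Agent.Lib.MP_5349a4_pr.M.H96.Pond
import Pool.Agent.Lib.MP_5349a4_pr.M.H98.Final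
import Pool.Agent.Lib.MP_5349a4_pr.M.H98.Froz
import Pool.Agent.Lib.MP_5349a4_pr.M.H98.Stat
import Pool.Agent.Lib.MP_5349a4_pr.M.H98.Wetv

/-!
# Assembly of project MSF: the frozen statement S19320 (Paper.md)
-/

set_option autoImplicit false

namespace Pool.Agent.Lib.MP_5349a4_pr.All

theorem aSlb : SlbStatement := Pool.Agent.Lib.MP_5349a4_pr.H53.slb 
theorem aTInf : TInfStatement := Pool.Agent.Lib.MP_5349a4_pr.H84.tinf 
theorem aSubc : SubcStatement := Pool.Agent.Lib.MP_5349a4_pr.H84.subc aSlb aTInf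
theorem aRot : RotStatement := Pool.Agent.Lib.MP_5349a4_pr.H78.rot 
theorem aRad : RadStatement := Pool.Agent.Lib.MP_5349a4_pr.H17.rad aSlb aRot
theorem aStep : StepStatement := Pool.Agent.Lib.MP_5349a4_pr.H53.step aSlb aRot
theorem aCompar : ComparStatement := Pool.Agent.Lib.MP_5349a4_pr.H78.compar 
theorem aVol : VolStatement := Pool.Agent.Lib.MP_5349a4_pr.H22.vol aSlb aStep aCompar
theorem aVst : VstStatement := Pool.Agent.Lib.MP_5349a4_pr.H81.vst aSlb aRad aVol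
theorem aPtw : PtwStatement := Pool.Agent.Lib.MP_5349a4_pr.H22.ptw aSlb aVst
theorem aFar : FarStatement := Pool.Agent.Lib.MP_5349a4_pr.H81.far aTInf aVst aPtw aSlb
theorem aLens : LensStatement := Pool.Agent.Lib.MP_5349a4_pr.H58.lens 
theorem aNear : NearStatement := Pool.Agent.Lib.MP_5349a4_pr.H70.near aTInf aFar aLens aSlb
theorem aDep : DepStatement := Pool.Agent.Lib.MP_5349a4_pr.H22.dep aSlb aStep aCompar aVol
theorem aErrB : ErrBStatement := Pool.Agent.Lib.MP_5349a4_pr.H70.errb aFar aNear aDep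
theorem aClb : ClbStatement := Pool.Agent.Lib.MP_5349a4_pr.H58.clb 
theorem aRevD : RevDStatement := Pool.Agent.Lib.MP_5349a4_pr.H16.revd aClb
theorem aSubs : SubsStatement := Pool.Agent.Lib.MP_5349a4_pr.H38.subs 
theorem aSuper : SuperStatement := Pool.Agent.Lib.MP_5349a4_pr.H47.super 
theorem aProb : ProbStatement := Pool.Agent.Lib.MP_5349a4_pr.H27.prob 
theorem aMRestr : MRestrStatement := Pool.Agent.Lib.MP_5349a4_pr.H16.mrestr 
theorem aRes : ResStatement := Pool.Agent.Lib.MP_5349a4_pr.H23.res aSuper aProb aMRestr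
theorem aCount : CountStatement := Pool.Agent.Lib.MP_5349a4_pr.H7.count aRes
theorem aMSum : MSumStatement := Pool.Agent.Lib.MP_5349a4_pr.H16.msum 
theorem aSmp : SmpStatement := Pool.Agent.Lib.MP_5349a4_pr.H30.smp aSubs aRes aCount aMRestr aMSum aProb
theorem aConM : ConMStatement := Pool.Agent.Lib.MP_5349a4_pr.H48.conm aMSum
theorem aExpl : ExplStatement := Pool.Agent.Lib.MP_5349a4_pr.H30.expl aSmp aClb aConM
theorem aMecke : MeckeStatement := Pool.Agent.Lib.MP_5349a4_pr.H38.mecke 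
theorem aTree : TreeStatement := Pool.Agent.Lib.MP_5349a4_pr.H16.tree 
theorem aBk : BkStatement := Pool.Agent.Lib.MP_5349a4_pr.H92.bk aSubs aMSum aProb
theorem aTg : TgStatement := Pool.Agent.Lib.MP_5349a4_pr.H92.tg aTree aBk aMecke aMSum aConM aProb
theorem aPair : PairStatement := Pool.Agent.Lib.MP_5349a4_pr.H68.pair aTg aExpl aMecke aClb aConM aProb
theorem aMOps : MOpsStatement := Pool.Agent.Lib.MP_5349a4_pr.H16.mops 
theorem aSlg : SlgStatement := Pool.Agent.Lib.MP_5349a4_pr.H30.slg aExpl aSuper aMecke aClb aConM aMOps aMRestr aProb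
theorem aWsl : WslStatement := Pool.Agent.Lib.MP_5349a4_pr.H30.wsl aSlg aConM
theorem aCamp : CampStatement := Pool.Agent.Lib.MP_5349a4_pr.H27.camp aMecke aClb aConM
theorem aLip : LipStatement := Pool.Agent.Lib.MP_5349a4_pr.H27.lip aSuper
theorem aHpb : HpbStatement := Pool.Agent.Lib.MP_5349a4_pr.H30.hpb aSuper aLip aMecke aClb aConM aProb
theorem aRevA : RevAStatement := Pool.Agent.Lib.MP_5349a4_pr.H31.reva aRevD aExpl aSuper aMecke aPair aWsl aCamp aHpb aConM aRes aProb aClb aMRestr aMOps aMSum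
theorem aImg : ImgStatement := Pool.Agent.Lib.MP_5349a4_pr.H16.img 
theorem aTauF : TauFStatement := Pool.Agent.Lib.MP_5349a4_pr.H47.tauf aHpb aSlg aConM aImg
theorem aRev : RevStatement := Pool.Agent.Lib.MP_5349a4_pr.H54.rev aRevA aTg aTInf aTauF aSlb
theorem aBoot : BootStatement := Pool.Agent.Lib.MP_5349a4_pr.H70.boot aSubc aErrB aRev aTauF aSlb
theorem aThmA : ThmAStatement := Pool.Agent.Lib.MP_5349a4_pr.H63.thma aBoot aVst aPtw aTauF
theorem aProc : ProcStatement := Pool.Agent.Lib.MP_5349a4_pr.H47.Proc.proc aProb aSuper aImg aRes aMRestr aMOps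
theorem aFroz : FrozStatement := Pool.Agent.Lib.MP_5349a4_pr.H98.Froz.froz aRes aCount aProb
theorem aGenF : GenFStatement := Pool.Agent.Lib.MP_5349a4_pr.H59.genf 
theorem aPGen : PGenStatement := Pool.Agent.Lib.MP_5349a4_pr.H59.pgen aGenF aCount
theorem aFore : ForeStatement := Pool.Agent.Lib.MP_5349a4_pr.H15.Fore.fore 
theorem aCntE : CntEStatement := Pool.Agent.Lib.MP_5349a4_pr.H91.cnte 
theorem aDeg : DegStatement := Pool.Agent.Lib.MP_5349a4_pr.H80.deg 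
theorem aBadM : BadMStatement := Pool.Agent.Lib.MP_5349a4_pr.H59.badm 
theorem aBadN : BadNStatement := Pool.Agent.Lib.MP_5349a4_pr.H39.badn aCntE aDeg aBadM aPGen aMecke aMSum aProb
theorem aResamp : ResampStatement := Pool.Agent.Lib.MP_5349a4_pr.H65.resamp aSmp aRes aMRestr aMOps
theorem aTyp : TypStatement := Pool.Agent.Lib.MP_5349a4_pr.H12.typ aSuper aImg aMOps aProb
theorem aTypG : TypGStatement := Pool.Agent.Lib.MP_5349a4_pr.H80.typg aMOps aTyp aSuper aTg aConM aProb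
theorem aTypI : TypIStatement := Pool.Agent.Lib.MP_5349a4_pr.H72.typi aTyp aExpl aConM aMOps aMSum aMRestr aProb
theorem aMagP : MagPStatement := Pool.Agent.Lib.MP_5349a4_pr.H31.magp aImg aRes aMRestr aMOps aMSum aConM
theorem aSec : SecStatement := Pool.Agent.Lib.MP_5349a4_pr.H23.sec aPair aMecke aClb aConM
theorem aSecM : SecMStatement := Pool.Agent.Lib.MP_5349a4_pr.H78.secm aSec aCamp aTauF aSlb
theorem aMag : MagStatement := Pool.Agent.Lib.MP_5349a4_pr.H29.mag aSecM aMecke aMSum aMRestr aSuper aMOps aProb aConM aClb aCamp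
theorem aScal : ScalStatement := Pool.Agent.Lib.MP_5349a4_pr.H27.scal aImg aMOps aMSum aConM aMagP
theorem aDecR : DecRStatement := Pool.Agent.Lib.MP_5349a4_pr.H70.decr aScal aTauF
theorem aSumR : SumRStatement := Pool.Agent.Lib.MP_5349a4_pr.H10.sumr 
theorem aStatZ : StatZStatement := Pool.Agent.Lib.MP_5349a4_pr.H47.StatZ.statz aTypG aTypI aMagP aMag aDecR aSumR aScal aProb aConM aMOps aMSum
theorem aStatD : StatDStatement := Pool.Agent.Lib.MP_5349a4_pr.H80.statd 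
theorem aStatE : StatEStatement := Pool.Agent.Lib.MP_5349a4_pr.H43.state aSmp aMecke aMRestr aMOps aMSum aConM aClb aProb aHpb
theorem aStat : StatStatement := Pool.Agent.Lib.MP_5349a4_pr.H98.stat aStatZ aStatD aStatE aMagP aMag aDecR aSumR aScal aProb aMSum aMOps aMRestr aConM
theorem aInvD : InvDStatement := Pool.Agent.Lib.MP_5349a4_pr.H83.invd 
theorem aInvM : InvMStatement := Pool.Agent.Lib.MP_5349a4_pr.H84.invm aMSum aInvD
theorem aSpr : SprStatement := Pool.Agent.Lib.MP_5349a4_pr.H53.spr aSuper aMecke aCount aRes aInvD aInvM aConM aMSum aMOps aMRestr aProb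
theorem aSmp3 : Smp3Statement := Pool.Agent.Lib.MP_5349a4_pr.H12.smp3 aSmp aSuper aImg aMOps aMRestr aProb
theorem aDens : DensStatement := Pool.Agent.Lib.MP_5349a4_pr.H10.dens aCount
theorem aWetV : WetVStatement := Pool.Agent.Lib.MP_5349a4_pr.H98.Wet.wetv aInvD
theorem aGVol : GVolStatement := Pool.Agent.Lib.MP_5349a4_pr.H65.gvol aInvD aInvM aRes
theorem aStage : StageStatement := Pool.Agent.Lib.MP_5349a4_pr.H77.stage aStat aSpr aSmp3 aDens aWetV aMag aMagP aInvD aInvM aGenF aGVol aSuper aProb aMRestr aMOps aMSum aConM aClb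
theorem aPz : PzStatement := Pool.Agent.Lib.MP_5349a4_pr.H27.pz aSecM aConM
theorem aPos : PosStatement := Pool.Agent.Lib.MP_5349a4_pr.H91.pos aStage aPz aInvD aGenF aGVol
theorem aPond : PondStatement := Pool.Agent.Lib.MP_5349a4_pr.H96.pond aInvD
theorem aAtt : AttStatement := Pool.Agent.Lib.MP_5349a4_pr.H82.att aPond aSmp aCamp aRes aInvM aConM aInvD aProb aMRestr aMSum
theorem aShel : ShelStatement := Pool.Agent.Lib.MP_5349a4_pr.H15.Shel.shel aSmp aMecke aInvD aInvM aProb aMRestr aMSum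
theorem aGsb : GsbStatement := Pool.Agent.Lib.MP_5349a4_pr.H12.gsb 
theorem aRec : RecStatement := Pool.Agent.Lib.MP_5349a4_pr.H12.recT aAtt aShel aGsb aProb
theorem aGrow : GrowStatement := Pool.Agent.Lib.MP_5349a4_pr.H17.grow aRec aGenF aInvD aInvM aProb
theorem aInvSc : InvScStatement := Pool.Agent.Lib.MP_5349a4_pr.H15.invsc 
theorem aRotM : RotMStatement := Pool.Agent.Lib.MP_5349a4_pr.H27.rotm aInvSc aImg aInvM
theorem aMunV : MunVStatement := Pool.Agent.Lib.MP_5349a4_pr.H10.munv aInvD aInvSc aImg aRes aInvM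
theorem aPairE : PairEStatement := Pool.Agent.Lib.MP_5349a4_pr.H74.paire aInvM
theorem aTwo : TwoStatement := Pool.Agent.Lib.MP_5349a4_pr.H48.two aMRestr aMOps aProb aResamp aPos aGrow aRotM aMunV aPairE aInvD aInvM
theorem aMeet : MeetStatement := Pool.Agent.Lib.MP_5349a4_pr.H72.meet aTwo aInvSc aInvD aInvM aMecke aMSum aMOps aImg aProb
theorem aFinal : FinalStatement := Pool.Agent.Lib.MP_5349a4_pr.H98.final aThmA aProc aFroz aPGen aFore aBadN aMeet

end Pool.Agent.Lib.MP_5349a4_pr.All
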