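import Pool.Agent.Lib.MP_5349a4_pr.M.Iface4
import Pool.Agent.Lib.MP_5349a4_pr.M.Base

/-!
# FINAL: the frozen statement from the modules
-/

set_option autoImplicit false
open MeasureTheory Set ProbabilityTheory
open scoped ENNReal NNReal

namespace Pool.Agent.Lib.MP_5349a4_pr.H98

variable {d : ℕ}

/-- a chain of points with short steps gives membership in the open cluster -/
theorem exists_chain_of_och {S : Set (Eu d)} {r : ℝ} {x p : Eu d} (hx : x ∈ S)
    (h : p ∈ och S r x) :
    ∃ (k : ℕ) (z : ℕ → Eu d), z 0 = x ∧ z k = p ∧ (∀ j ≤ k, z j ∈ S) ∧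
      ∀ j < k, dist (z (j + 1)) (z j) < r := by
  have h' : Relation.ReflTransGen (fun a b : Eu d => dist a b < r ∧ b ∈ S) x p := h
  induction h' with
  | refl => exact ⟨0, fun _ => x, rfl, rfl, fun _ _ => hx, fun j hj => absurd hj (by omega)⟩
  | @tail b c hab hbc ih =>
    obtain ⟨k, z, h0, hk, hS, hd⟩ := ih hab
    classical
    refine ⟨k + 1, fun j => if j ≤ k then z j else c, ?_, ?_, ?_, ?_⟩
    · simp [h0]
    · simp
    · intro j hj
      by_cases hjk : j ≤ k
      · simp only [if_pos hjk]; exact hS j hjk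
      · simp only [if_neg hjk]; exact hbc.2
    · intro j hj
      by_cases hjk : j + 1 ≤ k
      · have h1 : j ≤ k := by omega
        simp only [if_pos hjk, if_pos h1]
        exact hd j (by omega)
      · have h1 : j = k := by omega
        subst h1
        have h2 : ¬ (j + 1 ≤ j) := by omega
        simp only [if_neg h2, le_refl, if_true]
        rw [hk, dist_comm]
        exact hbc.1

theorem och_of_chain {S : Set (Eu d)} {r : ℝ} {x p : Eu d} {k : ℕ} {z : ℕ → Eu d}
    (h0 : z 0 = x) (hk : z k = p) (hS : ∀ j ≤ k, z j ∈ S)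
    (hd : ∀ j < k, dist (z (j + 1)) (z j) < r) : p ∈ och S r x := by
  have key : ∀ j ≤ k, Relation.ReflTransGen (fun a b : Eu d => dist a b < r ∧ b ∈ S) x (z j) := by
    intro j
    induction j with
    | zero => intro _; rw [h0]
    | succ j ih =>
      intro hj
      refine (ih (by omega)).tail ⟨?_, hS _ hj⟩
      rw [dist_comm]
      exact hd j (by omega)
  have := key k le_rfl
  rw [hk] at this
  exact this

/-- a walk along forest edges without bad edges changes the tree by a finite set -/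
theorem tree_walk (hF : ForeStatement) {S : Set (Eu d)} (hLF : LF S) (hI : S.Infinite)
    (hG : Gen S) (hbad : ∀ x y : Eu d, ¬ bad S x y) {n : ℕ} {w : ℕ → Eu d}
    (hS : ∀ i ≤ n, w i ∈ S)
    (he : ∀ i < n, w i ≠ w (i + 1) ∧
      ¬ ∃ k : ℕ, ∃ z : ℕ → Eu d, z 0 = w i ∧ z k = w (i + 1) ∧ (∀ j ≤ k, z j ∈ S) ∧
        ∀ j < k, dist (z (j + 1)) (z j) < dist (w i) (w (i + 1))) :
    (tree S (w 0) \ tree S (w n)).Finite := by
  have key : ∀ i ≤ n, (tree S (w 0) \ tree S (w i)).Finite := by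
    intro i
    induction i with
    | zero => intro _; simp
    | succ i ih =>
      intro hi
      have h1 := ih (by omega)
      have hedge : edge S (w i) (w (i + 1)) := by
        refine ⟨hS i (by omega), hS (i + 1) hi, (he i (by omega)).1, ?_⟩
        intro hmem
        exact (he i (by omega)).2 (exists_chain_of_och (hS i (by omega)) hmem)
      have h2 := ((hF d S hLF hI hG).2 _ _ hedge (hbad _ _)).1
      refine (h1.union h2).subset ?_
      intro p hp
      by_cases hpi : p ∈ tree S (w i)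
      · exact Or.inr ⟨hpi, hp.2⟩
      · exact Or.inl ⟨hp.1, hpi⟩
  exact key n le_rfl

theorem final (hA : ThmAStatement) (hP : ProcStatement) (hZ : FrozStatement)
    (hG : PGenStatement) (hF : ForeStatement) (hB : BadNStatement) (hM : MeetStatement) :
    FinalStatement := by
  intro hall
  obtain ⟨d0, hd0⟩ := hA
  set d : ℕ := max d0 3 with hd
  obtain ⟨lam, κ, A, hC⟩ := hd0 d (le_max_left _ _)
  have hd3 : 3 ≤ d := le_max_right _ _
  have hd1 : 1 ≤ d := by omega
  obtain ⟨Ω, mΩ, Pr, S, hS⟩ := hP d hd1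
  have := hS.prob
  obtain ⟨hc, hi⟩ := hZ d Ω Pr S hd1 hS
  have hconn := hall d hd3 Ω Pr S hS.lf hc hi
  have hgen := hG d Ω Pr S hd1 hS
  have hbad := hB d Ω Pr S hd1 hS
  have hpos := hM d lam κ A hC Ω Pr S hS
  have hae : ∀ᵐ ω ∂Pr, ¬ ∃ x ∈ S ω, ∃ y ∈ S ω, Disjoint (tree (S ω) x) (tree (S ω) y) := by
    filter_upwards [hconn, hgen, hbad] with ω h1 h2 h3
    rintro ⟨x, hx, y, hy, hdis⟩
    obtain ⟨n, w, hw0, hwn, hwS, hwe⟩ := h1 x hx y hy
    have hfin := tree_walk hF (hS.lf ω) h2.1 h2.2 h3 hwS hwe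
    rw [hw0, hwn, hdis.sdiff_eq_left] at hfin
    exact (hF d (S ω) (hS.lf ω) h2.1 h2.2).1 x hx hfin
  have h0 : Pr {ω | ∃ x ∈ S ω, ∃ y ∈ S ω, Disjoint (tree (S ω) x) (tree (S ω) y)} = 0 := by
    rw [ae_iff] at hae
    simpa using hae
  exact hpos.ne' h0

end Pool.Agent.Lib.MP_5349a4_pr.H98
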