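import Pool.Agent.Lib.MP_5349a4_pr.M.Iface3
import Pool.Agent.Lib.MP_5349a4_pr.M.Base

/-!
# Random finite sets realised by measurable tuples: a small calculus for measurability proofs
-/

set_option autoImplicit false
open MeasureTheory Set
open scoped ENNReal NNReal

namespace Pool.Agent.Lib.MP_5349a4_pr.H98

/-- the set valued map `A` is realised by a measurable map to tuples -/
def RS {T E : Type} [MeasurableSpace T] [MeasurableSpace E] (A : T → Set E) : Prop :=
  ∃ a : T → Cfg E, Measurable a ∧ ∀ t, pt (a t) = A t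

section
variable {T T' E : Type} [MeasurableSpace T] [MeasurableSpace T'] [MeasurableSpace E]

theorem RS.pt : RS (fun ω : Cfg E => MP_5349a4_pr.pt ω) := ⟨id, measurable_id, fun _ => rfl⟩

theorem RS.comp {A : T → Set E} (hA : RS A) {g : T' → T} (hg : Measurable g) :
    RS (fun t => A (g t)) := by
  obtain ⟨a, ha, h⟩ := hA
  exact ⟨fun t => a (g t), ha.comp hg, fun t => h (g t)⟩

theorem RS.union (hM : MOpsStatement) {A B : T → Set E} (hA : RS A) (hB : RS B) :
    RS (fun t => A t ∪ B t) := by
  obtain ⟨a, ha, h⟩ := hA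
  obtain ⟨b, hb, h'⟩ := hB
  obtain ⟨u, hu, hu'⟩ := hM.1 E
  refine ⟨fun t => u (a t, b t), hu.comp (ha.prodMk hb), fun t => ?_⟩
  rw [hu', h, h']

theorem RS.insert (hM : MOpsStatement) {A : T → Set E} (hA : RS A) {x : T → E}
    (hx : Measurable x) : RS (fun t => Insert.insert (x t) (A t)) := by
  obtain ⟨a, ha, h⟩ := hA
  obtain ⟨u, hu, hu'⟩ := hM.2.1 E
  refine ⟨fun t => u (x t, a t), hu.comp (hx.prodMk ha), fun t => ?_⟩
  rw [hu', h]

theorem RS.restr (hR : MRestrStatement) {A : T → Set E} (hA : RS A) {S : T → E → Prop}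
    (hS : MeasurableSet {q : T × E | S q.1 q.2}) : RS (fun t => {e | e ∈ A t ∧ S t e}) := by
  obtain ⟨a, ha, h⟩ := hA
  obtain ⟨u, hu, hu'⟩ := hR T E {q | S q.1 q.2} hS
  refine ⟨fun t => u (t, a t), hu.comp (measurable_id.prodMk ha), fun t => ?_⟩
  rw [hu', h]
  rfl

theorem RS.congr {A B : T → Set E} (hA : RS A) (h : ∀ t, A t = B t) : RS B := by
  obtain ⟨a, ha, h'⟩ := hA
  exact ⟨a, ha, fun t => (h' t).trans (h t)⟩

theorem RS.exists (hM : MSumStatement) {A : T → Set E} (hA : RS A) {S : T → E → Prop}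
    (hS : MeasurableSet {q : T × E | S q.1 q.2}) : MeasurableSet {t | ∃ p ∈ A t, S t p} := by
  obtain ⟨a, ha, h⟩ := hA
  have h1 : MeasurableSet {q : T × Cfg E | ∃ p ∈ MP_5349a4_pr.pt q.2, S q.1 p} := by
    refine hM.2.1 T E (fun t p _ => S t p) ?_
    exact (measurable_fst.prodMk (measurable_fst.comp measurable_snd)) hS
  have h2 := (measurable_id.prodMk ha) h1
  convert h2 using 1
  ext t
  simp only [mem_ofPred_eq, mem_preimage, h, id]

theorem RS.mem [MeasurableEq E] (hM : MSumStatement) {A : T → Set E} (hA : RS A) {x : T → E}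
    (hx : Measurable x) : MeasurableSet {t | x t ∈ A t} := by
  have := RS.exists hM hA (S := fun t p => p = x t)
    (measurableSet_eq_fun measurable_snd (hx.comp measurable_fst))
  convert this using 1
  ext t
  simp

theorem RS.tsum [StandardBorelSpace E] (hM : MSumStatement) {A : T → Set E} (hA : RS A)
    {g : T → E → ℝ≥0∞} (hg : Measurable fun q : T × E => g q.1 q.2) :
    Measurable fun t => ∑' p : A t, g t p := by
  obtain ⟨a, ha, h⟩ := hA
  have h1 : Measurable fun q : T × Cfg E => ∑' p : (MP_5349a4_pr.pt q.2 : Set E), g q.1 p := by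
    refine hM.1 T E (fun t p _ => g t p) ?_
    exact hg.comp (measurable_fst.prodMk (measurable_fst.comp measurable_snd))
  have h2 := h1.comp (measurable_id.prodMk ha)
  convert h2 using 1
  funext t
  simp only [Function.comp, id]
  rw [h t]

theorem RS.con [StandardBorelSpace E] (hC : ConMStatement) {A : T → Set E} (hA : RS A)
    {adj : E → E → Prop} (hadj : MAdj adj) {x y : T → E} (hx : Measurable x) (hy : Measurable y) :
    MeasurableSet {t | Con adj (A t) (x t) (y t)} := by
  obtain ⟨a, ha, h⟩ := hA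
  have h1 := (hC E adj hadj).1
  have h2 := (hx.prodMk (hy.prodMk ha)) h1
  convert h2 using 1
  ext t
  simp only [mem_ofPred_eq, mem_preimage, h]

theorem RS.memcl [StandardBorelSpace E] (hC : ConMStatement) {A : T → Set E} (hA : RS A)
    {adj : E → E → Prop} (hadj : MAdj adj) {x y : T → E} (hx : Measurable x) (hy : Measurable y) :
    MeasurableSet {t | y t ∈ cl adj (A t) (x t)} := by
  obtain ⟨a, ha, h⟩ := hA
  have h1 := (hC E adj hadj).2.1 (fun b a => a = b)
    (measurableSet_eq_fun measurable_snd measurable_fst)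
  have h2 := (hy.prodMk (hx.prodMk ha)) h1
  convert h2 using 1
  ext t
  simp only [mem_ofPred_eq, mem_preimage, h, Hs]
  constructor
  · intro h; exact ⟨y t, h, rfl⟩
  · rintro ⟨b, hb, rfl⟩; exact hb

end

section Euclid
variable {d : ℕ} {T : Type} [MeasurableSpace T]

/-- membership in `LLs` -/
theorem RS.memLLs (hM : MSumStatement) (hO : MOpsStatement) (hR : MRestrStatement)
    (hC : ConMStatement) {N G : T → Set (Eu d)} (hN : RS N) (hG : RS G) {W : Set (Eu d)}
    (hW : MeasurableSet W) (r : ℝ) {y : T → Eu d} (hy : Measurable y) :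
    MeasurableSet {t | y t ∈ LLs r (N t) (G t) W} := by
  have hU : RS (fun t => (N t ∪ G t) \ W) := by
    refine ((hN.union hO hG).restr hR (S := fun _ e => e ∉ W) ?_).congr fun t => ?_
    · exact (measurable_snd hW).compl
    · rfl
  have hG' : RS (fun t => G t \ W) := by
    refine (hG.restr hR (S := fun _ e => e ∉ W) ?_).congr fun t => ?_
    · exact (measurable_snd hW).compl
    · rfl
  have h1 : MeasurableSet {t | y t ∈ (N t ∪ G t) \ W} := hU.mem hM hy
  have h2 : MeasurableSet {t | ∃ p ∈ G t \ W, p ∈ cl (ad r) ((N t ∪ G t) \ W) (y t)} := by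
    refine hG'.exists hM (S := fun t p => p ∈ cl (ad r) ((N t ∪ G t) \ W) (y t)) ?_
    exact RS.memcl hC (hU.comp measurable_fst) (madj_ad r) (hy.comp measurable_fst) measurable_snd
  exact h1.inter h2

/-- membership in the neighbourhood of `LLs` -/
theorem RS.memNbdLLs (hM : MSumStatement) (hO : MOpsStatement) (hR : MRestrStatement)
    (hC : ConMStatement) {N G : T → Set (Eu d)} (hN : RS N) (hG : RS G) {W : Set (Eu d)}
    (hW : MeasurableSet W) (r r' : ℝ) {y : T → Eu d} (hy : Measurable y) :
    MeasurableSet {t | y t ∈ nbd r' (LLs r (N t) (G t) W)} := by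
  have h1 : MeasurableSet {t | ∃ p ∈ N t ∪ G t, p ∈ LLs r (N t) (G t) W ∧ dist (y t) p ≤ r'} := by
    refine (hN.union hO hG).exists hM
      (S := fun t p => p ∈ LLs r (N t) (G t) W ∧ dist (y t) p ≤ r') ?_
    refine MeasurableSet.inter ?_ ?_
    · exact RS.memLLs hM hO hR hC (hN.comp measurable_fst) (hG.comp measurable_fst) hW r
        measurable_snd
    · exact measurableSet_le ((hy.comp measurable_fst).dist measurable_snd) measurable_const
  convert h1 using 1
  ext t
  constructor
  · rintro ⟨p, hp, hd⟩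
    exact ⟨p, hp.1.1, hp, hd⟩
  · rintro ⟨p, _, hp, hd⟩
    exact ⟨p, hp, hd⟩

theorem measurable_num {p : T → Eu d → Prop} (R : Finset (Eu d))
    (hp : ∀ x ∈ R, MeasurableSet {t | p t x}) : Measurable fun t => num R (p t) := by
  unfold num
  exact Finset.measurable_fun_sum _ fun x hx => measurable_ind (hp x hx)

/-- `Zbc` is measurable -/
theorem RS.zbc (hM : MSumStatement) (hO : MOpsStatement) (hR : MRestrStatement)
    (hC : ConMStatement) {N G : T → Set (Eu d)} (hN : RS N) (hG : RS G) {W : Set (Eu d)}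
    (hW : MeasurableSet W) (r : ℝ) (R : Finset (Eu d)) :
    Measurable fun t => Zbc r (N t) (G t) W R := by
  unfold Zbc
  have hA : RS (fun t => (N t ∪ G t) ∩ W) := by
    refine ((hN.union hO hG).restr hR (S := fun _ e => e ∈ W) ?_).congr fun t => ?_
    · exact measurable_snd hW
    · rfl
  have h1 : Measurable fun q : T × Eu d =>
      ind (q.2 ∈ nbd r (LLs r (N q.1) (G q.1) W) ∨ q.2 ∈ G q.1) := by
    refine measurable_ind ?_
    refine MeasurableSet.union ?_ ?_
    · exact RS.memNbdLLs hM hO hR hC (hN.comp measurable_fst) (hG.comp measurable_fst) hW r r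
        measurable_snd
    · exact (hG.comp measurable_fst).mem hM measurable_snd
  have hS : MeasurableSet {q : (T × Eu d) × Eu d |
      q.2 ∉ nbd r (LLs r (N q.1.1) (G q.1.1) W) ∧ q.2 ≠ q.1.2} := by
    refine MeasurableSet.inter ?_ ?_
    · exact (RS.memNbdLLs hM hO hR hC (hN.comp (measurable_fst.comp measurable_fst))
        (hG.comp (measurable_fst.comp measurable_fst)) hW r r measurable_snd).compl
    · exact (measurableSet_eq_fun measurable_snd (measurable_snd.comp measurable_fst)).compl
  have hF : RS (fun q : T × Eu d => (N q.1 \ nbd r (LLs r (N q.1) (G q.1) W)) \ {q.2}) := by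
    refine ((hN.comp measurable_fst).restr hR
      (S := fun q e => e ∉ nbd r (LLs r (N q.1) (G q.1) W) ∧ e ≠ q.2) hS).congr fun q => ?_
    ext e
    constructor
    · rintro ⟨h1, h2, h3⟩; exact ⟨⟨h1, h2⟩, h3⟩
    · rintro ⟨⟨h1, h2⟩, h3⟩; exact ⟨h1, h2, h3⟩
  have h2 : Measurable fun q : T × Eu d => num R (fun x => Con (ad r)
      ((N q.1 \ nbd r (LLs r (N q.1) (G q.1) W)) \ {q.2}) q.2 x) := by
    unfold num
    exact Finset.measurable_fun_sum _ fun x _ => measurable_ind
      (RS.con hC hF (madj_ad r) measurable_snd measurable_const)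
  exact hA.tsum hM (g := fun t v => ind (v ∈ nbd r (LLs r (N t) (G t) W) ∨ v ∈ G t) *
      num R fun x => Con (ad r) ((N t \ nbd r (LLs r (N t) (G t) W)) \ {v}) v x) (h1.mul h2)

end Euclid

end Pool.Agent.Lib.MP_5349a4_pr.H98
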